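import Pool.Agent.Common_Sieve.Primes

set_option autoImplicit false
set_option exponentiation.threshold 1000

/-!
Brun-Titchmarsh inequality with the von Mangoldt function.
-/

namespace Pool.Agent.Common_Sieve

open Finset

/-- number of `j`-th powers in an interval -/
lemma card_powers (y H j : ℕ) (hj : 2 ≤ j) (T : Finset ℕ)
    (hT : ∀ a ∈ T, y < a ^ j ∧ a ^ j ≤ y + H) : T.card ≤ Nat.sqrt H + 1 := by
  rcases T.eq_empty_or_nonempty with h | h
  · simp [h]
  · set a0 := T.min' h with ha0
    have hsub : T ⊆ Finset.Icc a0 (a0 + Nat.sqrt H) := by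
      intro a ha
      rw [Finset.mem_Icc]
      have h1 : a0 ≤ a := Finset.min'_le T a ha
      refine ⟨h1, ?_⟩
      have h2 := hT a ha
      have h3 := hT a0 (Finset.min'_mem T h)
      obtain ⟨d, rfl⟩ := Nat.exists_eq_add_of_le h1
      have h4 : a0 ^ j + d ^ j ≤ (a0 + d) ^ j :=
        pow_add_pow_le (Nat.zero_le _) (Nat.zero_le _) (by omega)
      have h5 : d ^ j ≤ H := by omega
      have h6 : d ≤ Nat.sqrt H := by
        rw [Nat.le_sqrt']
        rcases Nat.eq_zero_or_pos d with h | h
        · subst h; simp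
        · exact (Nat.pow_le_pow_right h hj).trans h5
      omega
    have := Finset.card_le_card hsub
    rw [Nat.card_Icc] at this
    omega

/-- number of proper prime powers in an interval -/
lemma card_prime_powers (y H : ℕ) (T : Finset ℕ)
    (hT : ∀ m ∈ T, y < m ∧ m ≤ y + H ∧ IsPrimePow m ∧ ¬ m.Prime) :
    T.card ≤ (Nat.log 2 (y + H) + 1) * (Nat.sqrt H + 1) := by
  set J := Nat.log 2 (y + H) + 1 with hJ
  have h1 : T ⊆ (range J).biUnion (fun i => ((Finset.Icc 1 (y + H)).filter
      (fun a => y < a ^ (i + 2) ∧ a ^ (i + 2) ≤ y + H)).image (fun a => a ^ (i + 2))) := by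
    intro m hm
    obtain ⟨h2, h3, h4, h5⟩ := hT m hm
    rw [isPrimePow_nat_iff] at h4
    obtain ⟨p, j, hp, hj, rfl⟩ := h4
    have hj2 : 2 ≤ j := by
      rcases Nat.lt_or_ge j 2 with h | h
      · exfalso
        have : j = 1 := by omega
        subst this
        rw [pow_one] at h5
        exact h5 hp
      · exact h
    rw [Finset.mem_biUnion]
    refine ⟨j - 2, ?_, ?_⟩
    · rw [Finset.mem_range]
      have h6 : 2 ^ j ≤ y + H := (Nat.pow_le_pow_left hp.two_le j).trans h3
      have h7 : j ≤ Nat.log 2 (y + H) := Nat.le_log_of_pow_le (by norm_num) h6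
      omega
    · rw [Finset.mem_image]
      refine ⟨p, ?_, by congr 1; omega⟩
      rw [Finset.mem_filter, Finset.mem_Icc, show j - 2 + 2 = j by omega]
      refine ⟨⟨hp.one_le, ?_⟩, h2, h3⟩
      exact (Nat.le_self_pow (by omega) p).trans h3
  calc T.card ≤ _ := Finset.card_le_card h1
    _ ≤ ∑ i ∈ range J, (((Finset.Icc 1 (y + H)).filter
      (fun a => y < a ^ (i + 2) ∧ a ^ (i + 2) ≤ y + H)).image (fun a => a ^ (i + 2))).card :=
        Finset.card_biUnion_le
    _ ≤ ∑ i ∈ range J, (Nat.sqrt H + 1) := by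
        apply Finset.sum_le_sum
        intro i _
        refine Finset.card_image_le.trans ?_
        exact card_powers y H (i + 2) (by omega) _ (fun a ha => (Finset.mem_filter.1 ha).2)
    _ = J * (Nat.sqrt H + 1) := by rw [Finset.sum_const, Finset.card_range, smul_eq_mul]

lemma prod_coprime_le (w q : ℕ) (hw : 2 ≤ w) (hq : 0 < q) (S : Finset ℕ)
    (hS : S = (range w).filter (fun p => p.Prime ∧ ¬ p ∣ q)) :
    ∏ p ∈ S, (1 - (1:ℝ) / p) ≤ (1 / Real.log w) * (q / q.totient) := by
  have h1 : (q.totient : ℝ) / q = ∏ p ∈ q.primeFactors, (1 - (1:ℝ) / p) := by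
    have h2 := Nat.totient_eq_mul_prod_factors q
    have h3 : (q.totient : ℝ) = q * ∏ p ∈ q.primeFactors, (1 - (p:ℝ)⁻¹) := by
      have := congrArg (fun x : ℚ => (x : ℝ)) h2
      push_cast at this
      exact this
    rw [h3]
    have hq0 : (q : ℝ) ≠ 0 := by exact_mod_cast hq.ne'
    rw [mul_div_cancel_left₀ _ hq0]
    apply Finset.prod_congr rfl
    intro p _
    rw [one_div]
  have hphi : (0:ℝ) < (q.totient : ℝ) / q := by
    have h2 : (0:ℝ) < q.totient := by exact_mod_cast Nat.totient_pos.2 hq
    have h3 : (0:ℝ) < q := by exact_mod_cast hq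
    positivity
  have h2 : ((q.totient : ℝ) / q) * ∏ p ∈ S, (1 - (1:ℝ) / p) ≤ 1 / Real.log w := by
    refine le_trans ?_ (mertens_prod w hw)
    rw [h1]
    have hdec : w.primesBelow = ((range w).filter (fun p => p.Prime ∧ p ∣ q)) ∪ S := by
      ext p
      rw [hS]
      simp only [Nat.mem_primesBelow, Finset.mem_union, Finset.mem_filter, Finset.mem_range]
      tauto
    rw [hdec, Finset.prod_union]
    · apply mul_le_mul_of_nonneg_right
      · apply prod_le_prod_subset
        · intro p hp
          rw [Finset.mem_filter] at hp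
          exact Nat.mem_primeFactors.2 ⟨hp.2.1, hp.2.2, hq.ne'⟩
        · intro p hp
          exact (one_sub_inv_pos (Nat.prime_of_mem_primeFactors hp)).le
        · intro p _
          exact one_sub_inv_le p
      · apply Finset.prod_nonneg
        intro p hp
        rw [hS, Finset.mem_filter] at hp
        exact (one_sub_inv_pos hp.2.1).le
    · rw [Finset.disjoint_left]
      intro p hp hp'
      rw [hS] at hp'
      exact (Finset.mem_filter.1 hp').2.2 (Finset.mem_filter.1 hp).2.2
  have h3 : (q : ℝ) / q.totient = ((q.totient : ℝ) / q)⁻¹ := by rw [inv_div]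
  rw [h3, ← div_eq_mul_inv, le_div_iff₀ hphi, mul_comm]
  exact h2

/-- Sieve bound for `w`-rough numbers in an arithmetic progression. -/
lemma rough_in_ap (w q u y H : ℕ) (hw : 2 ≤ w) (hq : 0 < q) (T : Finset ℕ)
    (hT : ∀ m ∈ T, y < m ∧ m ≤ y + H ∧ m % q = u % q ∧ ∀ p, p.Prime → p < w → ¬ p ∣ m) :
    (T.card : ℝ) ≤ ((H : ℝ) / q + 1) * ((1 / Real.log w) * (q / q.totient)) * 3
      + (w : ℝ) ^ 260 := by
  set S := (range w).filter (fun p => p.Prime ∧ ¬ p ∣ q) with hS
  have hSp : ∀ p ∈ S, p.Prime ∧ p < w := by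
    intro p hp
    rw [hS, Finset.mem_filter, Finset.mem_range] at hp
    exact ⟨hp.2.1, hp.1⟩
  set u0 : ℕ := u % q with hu0
  set X : ℤ := ((y : ℤ) - u0) / q with hX
  set Y : ℕ := (((y + H : ℤ) - u0) / q - X).toNat with hY
  have hq' : (0:ℤ) < q := by exact_mod_cast hq
  have hXY : X ≤ ((y + H : ℤ) - u0) / q := by
    rw [hX]
    apply Int.ediv_le_ediv hq'
    have : (0:ℤ) ≤ H := by positivity
    linarith
  have hYe : X + Y = ((y + H : ℤ) - u0) / q := by
    rw [hY, Int.toNat_of_nonneg (by linarith)]
    ring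
  have hYle : (Y : ℝ) ≤ (H : ℝ) / q + 1 := by
    have h1 : (X + Y) * q ≤ (y + H : ℤ) - u0 := by
      rw [hYe]; exact Int.ediv_mul_le _ hq'.ne'
    have h2 : (y : ℤ) - u0 < (X + 1) * q := by
      rw [hX]; exact Int.lt_ediv_add_one_mul_self _ hq'
    have h3 : (Y : ℤ) * q ≤ H + q := by nlinarith
    have h4 : (Y : ℝ) * q ≤ H + q := by exact_mod_cast h3
    have hqr : (0:ℝ) < q := by exact_mod_cast hq
    rw [div_add_one hqr.ne', le_div_iff₀ hqr]
    exact h4
  have hsieve := sieve_one (z := w) (by omega) hSp (q : ℤ) (u0 : ℤ)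
    (by
      intro p hp h
      rw [hS, Finset.mem_filter] at hp
      exact hp.2.2 (by exact_mod_cast h)) X Y 31
  have hcard : (T.card : ℝ) ≤ (((Finset.Ioc X (X + Y)).filter
      (fun n => ∀ p ∈ S, ¬ (p : ℤ) ∣ (q : ℤ) * n + u0)).card : ℝ) := by
    have h1 : (T.image (fun m : ℕ => ((m : ℤ) - u0) / q)).card = T.card := by
      apply Finset.card_image_of_injOn
      intro a ha b hb hab
      simp only at hab
      have e : ∀ m ∈ T, ((m : ℤ) - u0) = q * (((m : ℤ) - u0) / q) := by
        intro m hm
        have h2 := (hT m hm).2.2.1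
        have h3 : (q : ℤ) ∣ (m : ℤ) - u0 := by
          rw [← Int.modEq_iff_dvd]
          rw [hu0]
          have : m ≡ u % q [MOD q] := by
            unfold Nat.ModEq
            rw [h2, Nat.mod_mod]
          have h5 := (Int.natCast_modEq_iff.2 this).symm
          exact_mod_cast h5
        exact (Int.mul_ediv_cancel' h3).symm
      have h1 := e a ha
      have h2 := e b hb
      rw [hab, ← h2] at h1
      have : (a : ℤ) = b := by linarith
      exact_mod_cast this
    rw [← h1]
    have h2 : T.image (fun m : ℕ => ((m : ℤ) - u0) / q) ⊆ (Finset.Ioc X (X + Y)).filter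
      (fun n => ∀ p ∈ S, ¬ (p : ℤ) ∣ (q : ℤ) * n + u0) := by
      intro x hx
      obtain ⟨m, hm, rfl⟩ := Finset.mem_image.1 hx
      obtain ⟨h3, h4, h5, h6⟩ := hT m hm
      have hdvd : (q : ℤ) ∣ (m : ℤ) - u0 := by
        rw [← Int.modEq_iff_dvd]
        rw [hu0]
        have : m ≡ u % q [MOD q] := by
          unfold Nat.ModEq
          rw [h5, Nat.mod_mod]
        have h5 := (Int.natCast_modEq_iff.2 this).symm
        exact_mod_cast h5
      have hmul : (q : ℤ) * (((m : ℤ) - u0) / q) = (m : ℤ) - u0 := Int.mul_ediv_cancel' hdvd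
      rw [Finset.mem_filter, Finset.mem_Ioc]
      refine ⟨⟨?_, ?_⟩, ?_⟩
      · rw [hX]
        rw [Int.ediv_lt_iff_lt_mul hq']
        have : (y : ℤ) < m := by exact_mod_cast h3
        linarith [hmul, mul_comm (q : ℤ) (((m : ℤ) - u0) / q)]
      · rw [hYe]
        apply Int.ediv_le_ediv hq'
        have : (m : ℤ) ≤ y + H := by exact_mod_cast h4
        linarith
      · intro p hp hd
        rw [hmul, sub_add_cancel] at hd
        exact h6 p (hSp p hp).1 (hSp p hp).2 (by exact_mod_cast hd)
    exact_mod_cast Finset.card_le_card h2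
  have hprod := prod_coprime_le w q hw hq S hS
  have h0 : 0 ≤ ∏ p ∈ S, (1 - (1:ℝ) / p) :=
    Finset.prod_nonneg (fun p hp => (one_sub_inv_pos (hSp p hp).1).le)
  refine hcard.trans (hsieve.trans ?_)
  apply add_le_add _ le_rfl
  apply mul_le_mul _ exp_epsB_31 (Real.exp_pos _).le
  · apply mul_nonneg (by positivity)
    exact h0.trans hprod
  · exact mul_le_mul hYle hprod h0 (by positivity)

/-- Brun-Titchmarsh with the von Mangoldt function. -/
theorem brun_titchmarsh : ∃ C : ℝ, 0 < C ∧ ∀ y H q u : ℕ, 0 < q → q ^ 4 ≤ H → y ≤ H ^ 2 →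
    ∑ m ∈ (Finset.Ioc y (y + H)).filter (fun m => m % q = u % q),
      (ArithmeticFunction.vonMangoldt m : ℝ) ≤ C * H / Nat.totient q := by
  obtain ⟨H0, hH0⟩ := (tendsto_lev.eventually_ge_atTop 2).exists_forall_of_atTop
  refine ⟨21600 + 2880 + (H0 ^ 2 + H0) * H0, by positivity, ?_⟩
  intro y H q u hq hqH hyH
  set T := (Finset.Ioc y (y + H)).filter (fun m => m % q = u % q) with hT
  have hphi : (0:ℝ) < q.totient := by exact_mod_cast Nat.totient_pos.2 hq
  have hqr : (0:ℝ) < q := by exact_mod_cast hq
  have hphiq : (q.totient : ℝ) ≤ q := by exact_mod_cast Nat.totient_le q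
  have hq1 : q ≤ q ^ 4 := Nat.le_self_pow (by norm_num) q
  have hH1 : 1 ≤ H := by omega
  have hHr : (0:ℝ) < H := by exact_mod_cast hH1
  rcases Nat.lt_or_ge H H0 with hsmall | hlarge
  · -- small `H`
    have h1 : ∀ m ∈ T, (ArithmeticFunction.vonMangoldt m : ℝ) ≤ (H0 : ℝ) ^ 2 + H0 := by
      intro m hm
      rw [hT, Finset.mem_filter, Finset.mem_Ioc] at hm
      have h2 : (ArithmeticFunction.vonMangoldt m : ℝ) ≤ Real.log m :=
        ArithmeticFunction.vonMangoldt_le_log
      have h3 : Real.log m ≤ m := by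
        have : (0:ℝ) < m := by exact_mod_cast (by omega : 0 < m)
        linarith [Real.log_le_sub_one_of_pos this]
      have h4 : m ≤ H0 ^ 2 + H0 := by
        have h5 : H ^ 2 ≤ H0 ^ 2 := Nat.pow_le_pow_left hsmall.le 2
        omega
      have h5 : (m : ℝ) ≤ (H0 : ℝ) ^ 2 + H0 := by exact_mod_cast h4
      linarith
    have h2 : (T.card : ℝ) ≤ H := by
      have := Finset.card_filter_le (Finset.Ioc y (y + H)) (fun m => m % q = u % q)
      rw [Nat.card_Ioc, Nat.add_sub_cancel_left] at this
      exact_mod_cast this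
    calc ∑ m ∈ T, (ArithmeticFunction.vonMangoldt m : ℝ) ≤ ∑ m ∈ T, ((H0 : ℝ) ^ 2 + H0) :=
          Finset.sum_le_sum h1
      _ = T.card * ((H0 : ℝ) ^ 2 + H0) := by rw [Finset.sum_const, nsmul_eq_mul]
      _ ≤ H * ((H0 : ℝ) ^ 2 + H0) := mul_le_mul_of_nonneg_right h2 (by positivity)
      _ ≤ _ := by
        rw [le_div_iff₀ hphi]
        have h3 : (q.totient : ℝ) ≤ H0 := by
          have : (q : ℝ) ≤ H0 := by exact_mod_cast (by omega : q ≤ H0)
          linarith
        have h4 : 0 ≤ (H : ℝ) * ((H0 : ℝ) ^ 2 + H0) := by positivity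
        have h5 := mul_le_mul_of_nonneg_left h3 h4
        have h6 : (0:ℝ) ≤ (21600 + 2880) * H := by positivity
        linarith
  · -- large `H`
    have hw2 : 2 ≤ lev H := hH0 H hlarge
    set w := lev H with hw
    have hH2 : 2 ≤ H := by
      have h1 : w ^ 1 ≤ w ^ 600 := Nat.pow_le_pow_right (by omega) (by norm_num)
      have h2 := lev_pow_le H
      rw [← hw] at h2
      rw [pow_one] at h1
      omega
    have hlogH : Real.log 2 ≤ Real.log H := Real.log_le_log (by norm_num) (by exact_mod_cast hH2)
    have hlog2 : (0.69:ℝ) < Real.log 2 := by linarith [Real.log_two_gt_d9]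
    have hlogH0 : 0 < Real.log H := by linarith
    have hlogw : Real.log H / 1200 ≤ Real.log w := log_lev_ge hw2
    have hlogw0 : 0 < Real.log w := Real.log_pos (by exact_mod_cast (by omega : 1 < w))
    have hyH3 : y + H ≤ H ^ 3 := by nlinarith
    have hlogy : Real.log ((y + H : ℕ) : ℝ) ≤ 3 * Real.log H := by
      have h1 : ((y + H : ℕ) : ℝ) ≤ (H : ℝ) ^ 3 := by exact_mod_cast hyH3
      have := Real.log_le_log (by positivity) h1
      rw [Real.log_pow] at this
      exact_mod_cast this
    set T1 := T.filter (fun m => m < w) with hT1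
    set T2 := T.filter (fun m => m.Prime ∧ w ≤ m) with hT2
    set T3 := T.filter (fun m => IsPrimePow m ∧ ¬ m.Prime) with hT3
    have hbound : ∑ m ∈ T, (ArithmeticFunction.vonMangoldt m : ℝ)
        ≤ 3 * Real.log H * (T1.card + (T2.card + T3.card)) := by
      have h1 : ∀ m ∈ T, (ArithmeticFunction.vonMangoldt m : ℝ)
          ≤ 3 * Real.log H * ((if m < w then 1 else 0) + ((if (m.Prime ∧ w ≤ m) then 1 else 0)
            + (if (IsPrimePow m ∧ ¬ m.Prime) then 1 else 0))) := by
        intro m hm
        rw [hT, Finset.mem_filter, Finset.mem_Ioc] at hm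
        have hle : (ArithmeticFunction.vonMangoldt m : ℝ) ≤ 3 * Real.log H := by
          have h2 : (ArithmeticFunction.vonMangoldt m : ℝ) ≤ Real.log m :=
            ArithmeticFunction.vonMangoldt_le_log
          have h3 : Real.log m ≤ Real.log ((y + H : ℕ) : ℝ) := by
            apply Real.log_le_log
            · exact_mod_cast (by omega : 0 < m)
            · exact_mod_cast hm.1.2
          linarith
        have hpos : 0 ≤ 3 * Real.log H := by linarith
        by_cases hpp : IsPrimePow m
        · by_cases hmp : m.Prime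
          · by_cases hmw : m < w
            · simp only [hmw, if_true]
              have : (0:ℝ) ≤ ((if (m.Prime ∧ w ≤ m) then (1:ℝ) else 0)
                + (if (IsPrimePow m ∧ ¬ m.Prime) then 1 else 0)) := by
                split_ifs <;> norm_num
              nlinarith
            · have h4 : m.Prime ∧ w ≤ m := ⟨hmp, by omega⟩
              have h5 : ¬ (IsPrimePow m ∧ ¬ m.Prime) := fun h => h.2 hmp
              rw [if_neg hmw, if_pos h4, if_neg h5]
              linarith
          · have h4 : ¬ (m.Prime ∧ w ≤ m) := fun h => hmp h.1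
            rw [if_neg h4, if_pos (show IsPrimePow m ∧ ¬ m.Prime from ⟨hpp, hmp⟩)]
            have h6 : (0:ℝ) ≤ (if m < w then (1:ℝ) else 0) := by split_ifs <;> norm_num
            have h7 := mul_nonneg hpos h6
            rw [mul_add, zero_add, mul_one]
            linarith
        · have h0 : (ArithmeticFunction.vonMangoldt m : ℝ) = 0 :=
            ArithmeticFunction.vonMangoldt_eq_zero_iff.2 hpp
          rw [h0]
          apply mul_nonneg hpos
          split_ifs <;> norm_num
      refine (Finset.sum_le_sum h1).trans (le_of_eq ?_)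
      rw [← Finset.mul_sum, Finset.sum_add_distrib, Finset.sum_add_distrib]
      congr 1
      rw [hT1, hT2, hT3, Finset.card_filter, Finset.card_filter, Finset.card_filter]
      push_cast
      rfl
    -- the three cardinalities
    set s := Real.sqrt H with hs
    have hs0 : 0 ≤ s := Real.sqrt_nonneg _
    have hss : s * s = H := Real.mul_self_sqrt hHr.le
    have hs1 : 1 ≤ s := by
      rw [hs, Real.one_le_sqrt]; exact_mod_cast hH1
    set r := Real.sqrt s with hr
    have hr0 : 0 ≤ r := Real.sqrt_nonneg _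
    have hrr : r * r = s := Real.mul_self_sqrt hs0
    have hr1 : 1 ≤ r := by rw [hr, Real.one_le_sqrt]; exact hs1
    have hqr4 : (q : ℝ) ≤ r := by
      have h1 : (q : ℝ) ^ 4 ≤ H := by exact_mod_cast hqH
      have h2 : r ^ 4 = H := by rw [← hss, ← hrr]; ring
      rw [← h2] at h1
      exact le_of_pow_le_pow_left₀ (by norm_num) hr0 h1
    have hlogsq : Real.log H ^ 2 ≤ 64 * r := by
      have h1 := log_sq_le s hs1
      have h2 : Real.log H = 2 * Real.log s := by
        rw [← hss, Real.log_mul (by linarith) (by linarith)]; ring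
      rw [h2]
      have h3 : (2 * Real.log s) ^ 2 = 4 * Real.log s ^ 2 := by ring
      rw [h3]
      linarith
    have hw260 : (w : ℝ) ^ 260 ≤ s := lev_pow_sqrt H (by omega)
    have hwle : (w : ℝ) ≤ s := by
      refine le_trans ?_ hw260
      have : (1:ℝ) ≤ w := by exact_mod_cast (by omega : 1 ≤ w)
      exact le_self_pow₀ this (by norm_num)
    have hc1 : (T1.card : ℝ) ≤ s := by
      refine le_trans ?_ hwle
      have : T1 ⊆ range w := by
        intro n hn
        rw [Finset.mem_range]
        exact (Finset.mem_filter.1 hn).2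
      have := Finset.card_le_card this
      rw [Finset.card_range] at this
      exact_mod_cast this
    have hc2 : (T2.card : ℝ) ≤ 2 * H / q * (1200 / Real.log H * (q / q.totient)) * 3 + s := by
      have h1 := rough_in_ap w q u y H hw2 hq T2 (by
        intro m hm
        obtain ⟨hmT, hmp, hwm⟩ := Finset.mem_filter.1 hm
        rw [hT, Finset.mem_filter, Finset.mem_Ioc] at hmT
        refine ⟨hmT.1.1, hmT.1.2, hmT.2, ?_⟩
        intro p hp hpw hpm
        have := (Nat.prime_dvd_prime_iff_eq hp hmp).1 hpm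
        omega)
      refine h1.trans (add_le_add ?_ hw260)
      apply mul_le_mul_of_nonneg_right _ (by norm_num)
      apply mul_le_mul
      · rw [div_add_one hqr.ne']
        apply div_le_div_of_nonneg_right _ hqr.le
        have : (q : ℝ) ≤ H := by exact_mod_cast (by omega : q ≤ H)
        linarith
      · apply mul_le_mul_of_nonneg_right _ (by positivity)
        rw [div_le_div_iff₀ hlogw0 hlogH0]
        linarith
      · positivity
      · positivity
    have hc3 : (T3.card : ℝ) ≤ 12 * Real.log H * s := by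
      have h1 := card_prime_powers y H T3 (by
        intro m hm
        obtain ⟨hmT, hmp, hwm⟩ := Finset.mem_filter.1 hm
        rw [hT, Finset.mem_filter, Finset.mem_Ioc] at hmT
        exact ⟨hmT.1.1, hmT.1.2, hmp, hwm⟩)
      have h2 : (T3.card : ℝ) ≤ ((Nat.log 2 (y + H) : ℝ) + 1) * ((Nat.sqrt H : ℝ) + 1) := by
        exact_mod_cast h1
      have h3 : (Nat.log 2 (y + H) : ℝ) ≤ 3 * Real.log H / 0.69 := by
        have h4 : (2:ℝ) ^ (Nat.log 2 (y + H)) ≤ ((y + H : ℕ) : ℝ) := by
          exact_mod_cast Nat.pow_log_le_self 2 (by omega)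
        have h5 := Real.log_le_log (by positivity) h4
        rw [Real.log_pow] at h5
        rw [le_div_iff₀ (by norm_num)]
        have h6 : (0:ℝ) ≤ Nat.log 2 (y + H) := by positivity
        have h7 := mul_le_mul_of_nonneg_left hlog2.le h6
        linarith
      have h4 : (Nat.sqrt H : ℝ) ≤ s := by
        rw [hs]; exact Real.nat_sqrt_le_real_sqrt
      have h5 : (Nat.log 2 (y + H) : ℝ) + 1 ≤ 6 * Real.log H := by
        have : 3 * Real.log H / 0.69 ≤ 4.4 * Real.log H := by
          rw [div_le_iff₀ (by norm_num)]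
          linarith
        linarith
      calc (T3.card : ℝ) ≤ _ := h2
        _ ≤ (6 * Real.log H) * (2 * s) := by
          apply mul_le_mul h5 (by linarith) (by positivity) (by positivity)
        _ = _ := by ring
    have hmain : 3 * Real.log H * (2 * H / q * (1200 / Real.log H * (q / q.totient)) * 3)
        = 21600 * H / q.totient := by
      field_simp
      norm_num
    have hrest : 3 * Real.log H * (s + s + 12 * Real.log H * s) ≤ 2880 * H / q.totient := by
      have h1 : 3 * Real.log H * (s + s + 12 * Real.log H * s) ≤ 45 * Real.log H ^ 2 * s := by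
        have h2 : 2 * s ≤ 3 * Real.log H * s :=
          mul_le_mul_of_nonneg_right (by linarith) hs0
        have h3 : 0 ≤ 3 * Real.log H := by linarith
        have h4 := mul_le_mul_of_nonneg_left h2 h3
        calc 3 * Real.log H * (s + s + 12 * Real.log H * s)
            = 3 * Real.log H * (2 * s) + 36 * Real.log H ^ 2 * s := by ring
          _ ≤ 3 * Real.log H * (3 * Real.log H * s) + 36 * Real.log H ^ 2 * s := by linarith
          _ = 45 * Real.log H ^ 2 * s := by ring
      have h2 : 45 * Real.log H ^ 2 * s ≤ 2880 * (r * s) := by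
        have h3 := mul_le_mul_of_nonneg_right hlogsq hs0
        linarith
      rw [le_div_iff₀ hphi]
      have h3 : (q.totient : ℝ) ≤ r := hphiq.trans hqr4
      have h4 : r * s * r = H := by rw [← hss, ← hrr]; ring
      have h5 : 0 ≤ 2880 * (r * s) := by positivity
      calc _ ≤ 2880 * (r * s) * q.totient := mul_le_mul_of_nonneg_right (h1.trans h2) hphi.le
        _ ≤ 2880 * (r * s) * r := mul_le_mul_of_nonneg_left h3 h5
        _ = 2880 * (r * s * r) := by ring
        _ = 2880 * H := by rw [h4]
    have hfin : ∑ m ∈ T, (ArithmeticFunction.vonMangoldt m : ℝ)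
        ≤ 21600 * H / q.totient + 2880 * H / q.totient := by
      refine hbound.trans ?_
      rw [← hmain]
      have h3 : 0 ≤ 3 * Real.log H := by linarith
      have h4 : (T1.card : ℝ) + (T2.card + T3.card)
          ≤ 2 * H / q * (1200 / Real.log H * (q / q.totient)) * 3 + (s + s + 12 * Real.log H * s) := by
        linarith
      have h5 := mul_le_mul_of_nonneg_left h4 h3
      rw [mul_add] at h5
      linarith
    refine hfin.trans ?_
    rw [← add_div]
    apply div_le_div_of_nonneg_right _ hphi.le
    have : (0:ℝ) ≤ ((H0 : ℝ) ^ 2 + H0) * H0 * H := by positivity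
    linarith

end Pool.Agent.Common_Sieve
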