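import Pool.Agent.Common_Sieve.Count

set_option autoImplicit false

/-!
Sieve bounds for one and two linear forms, the Brun-Titchmarsh inequality and an upper bound for
prime pairs.
-/

namespace Pool.Agent.Common_Sieve

open Finset

theorem sieve_count (P : ℕ → ℤ → Prop) [∀ p n, Decidable (P p n)]
    (hP : ∀ p n, P p (n + p) ↔ P p n) {z : ℕ} {S : Finset ℕ}
    (hdata : Data z S (fun p => (cnt P p : ℝ) / p)) (h2 : ∀ p ∈ S, cnt P p ≤ 2)
    (X : ℤ) (Y B : ℕ) :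
    (((Finset.Ioc X (X + Y)).filter (fun n => ∀ p ∈ S, ¬ P p n)).card : ℝ)
      ≤ Y * (∏ p ∈ S, (1 - (cnt P p : ℝ) / p)) * Real.exp (epsB B) + (z : ℝ) ^ (8 * B + 12) := by
  have h := upper_count hdata (Finset.Ioc X (X + Y)) (fun n p => if P p n then 1 else 0)
    (by intro n _ p; simp only; split_ifs <;> norm_num) (Y : ℝ) (by positivity) B
    (by
      intro D hD
      have h1 := count_crt P hP D (fun p hp => hdata.prime p (hD hp)) X Y
      have e1 : ∑ n ∈ Finset.Ioc X (X + Y), ∏ p ∈ D, (if P p n then (1:ℝ) else 0)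
          = (((Finset.Ioc X (X + Y)).filter (fun n => ∀ p ∈ D, P p n)).card : ℝ) := by
        rw [Finset.card_filter]
        push_cast
        apply Finset.sum_congr rfl
        intro n _
        rw [Finset.prod_boole]
      rw [e1]
      refine h1.trans ?_
      rw [← Finset.prod_const]
      apply Finset.prod_le_prod
      · intro p _; positivity
      · intro p hp; exact_mod_cast h2 p (hD hp))
  refine le_trans (le_of_eq ?_) h
  rw [Finset.card_filter]
  push_cast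
  apply Finset.sum_congr rfl
  intro n _
  have e : ∀ p ∈ S, (1 - (if P p n then (1:ℝ) else 0)) = if ¬ P p n then 1 else 0 := by
    intro p _
    split_ifs <;> simp_all
  rw [Finset.prod_congr rfl e, Finset.prod_boole]

lemma card_dvd_one {p : ℕ} (hp : p.Prime) (A B : ℤ) (hA : ¬ (p : ℤ) ∣ A) :
    ((range p).filter (fun r : ℕ => (p : ℤ) ∣ A * r + B)).card = 1 := by
  have := Fact.mk hp
  have hA' : (A : ZMod p) ≠ 0 := by rwa [Ne, ZMod.intCast_zmod_eq_zero_iff_dvd]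
  rw [Finset.card_eq_one]
  refine ⟨((-(B : ZMod p)) * (A : ZMod p)⁻¹).val, ?_⟩
  ext r
  simp only [Finset.mem_filter, Finset.mem_range, Finset.mem_singleton]
  constructor
  · rintro ⟨hr, hd⟩
    have h1 : (A : ZMod p) * (r : ZMod p) + B = 0 := by
      have := (ZMod.intCast_zmod_eq_zero_iff_dvd (A * r + B) p).2 hd
      push_cast at this
      exact this
    have h2 : (r : ZMod p) = -(B : ZMod p) * (A : ZMod p)⁻¹ := by
      field_simp
      linear_combination h1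
    rw [← h2, ZMod.val_natCast, Nat.mod_eq_of_lt hr]
  · rintro rfl
    refine ⟨ZMod.val_lt _, ?_⟩
    rw [← ZMod.intCast_zmod_eq_zero_iff_dvd]
    push_cast
    rw [ZMod.natCast_zmod_val]
    field_simp
    ring

/-- one linear form -/
theorem sieve_one {z : ℕ} (hz : 1 ≤ z) {S : Finset ℕ} (hS : ∀ p ∈ S, p.Prime ∧ p < z) (A B : ℤ)
    (hA : ∀ p ∈ S, ¬ (p : ℤ) ∣ A) (X : ℤ) (Y b : ℕ) :
    (((Finset.Ioc X (X + Y)).filter (fun n => ∀ p ∈ S, ¬ (p : ℤ) ∣ A * n + B)).card : ℝ)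
      ≤ Y * (∏ p ∈ S, (1 - (1 : ℝ) / p)) * Real.exp (epsB b) + (z : ℝ) ^ (8 * b + 12) := by
  set P : ℕ → ℤ → Prop := fun p n => (p : ℤ) ∣ A * n + B with hPdef
  have hc : ∀ p ∈ S, cnt P p = 1 := fun p hp => card_dvd_one (hS p hp).1 A B (hA p hp)
  have key := sieve_count P (by
      intro p n
      rw [hPdef]
      simp only
      rw [show A * (n + p) + B = A * n + B + A * p by ring]
      exact dvd_add_left (Dvd.intro_left A rfl)) (z := z) (S := S)
    ⟨hz, fun p hp => (hS p hp).1, fun p hp => (hS p hp).2, fun p => by positivity,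
      fun p hp => by
        rw [hc p hp]
        have : (2:ℝ) ≤ p := by exact_mod_cast (hS p hp).1.two_le
        rw [Nat.cast_one, div_le_iff₀ (by linarith)]
        linarith,
      fun p hp => by
        rw [hc p hp]
        apply div_le_div_of_nonneg_right _ (by positivity)
        norm_num⟩ (fun p hp => by rw [hc p hp]; norm_num) X Y b
  have e : ∏ p ∈ S, (1 - (cnt P p : ℝ) / p) = ∏ p ∈ S, (1 - (1 : ℝ) / p) := by
    apply Finset.prod_congr rfl
    intro p hp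
    rw [hc p hp, Nat.cast_one]
  rw [e] at key
  exact key

/-- two linear forms -/
theorem sieve_two {z : ℕ} (hz : 1 ≤ z) {S : Finset ℕ} (hS : ∀ p ∈ S, p.Prime ∧ p < z)
    (h3 : ∀ p ∈ S, 3 ≤ p) (A₁ B₁ A₂ B₂ : ℤ)
    (hA₁ : ∀ p ∈ S, ¬ (p : ℤ) ∣ A₁) (hA₂ : ∀ p ∈ S, ¬ (p : ℤ) ∣ A₂)
    (hD : ∀ p ∈ S, ¬ (p : ℤ) ∣ A₁ * B₂ - A₂ * B₁) (X : ℤ) (Y b : ℕ) :
    (((Finset.Ioc X (X + Y)).filter (fun n => ∀ p ∈ S,
        ¬ ((p : ℤ) ∣ A₁ * n + B₁ ∨ (p : ℤ) ∣ A₂ * n + B₂))).card : ℝ)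
      ≤ Y * (∏ p ∈ S, (1 - (2 : ℝ) / p)) * Real.exp (epsB b) + (z : ℝ) ^ (8 * b + 12) := by
  set P : ℕ → ℤ → Prop := fun p n => (p : ℤ) ∣ A₁ * n + B₁ ∨ (p : ℤ) ∣ A₂ * n + B₂ with hPdef
  have hc : ∀ p ∈ S, cnt P p = 2 := by
    intro p hp
    change ((range p).filter (fun r : ℕ => (p : ℤ) ∣ A₁ * r + B₁ ∨ (p : ℤ) ∣ A₂ * r + B₂)).card = 2
    rw [Finset.filter_or, Finset.card_union_of_disjoint, card_dvd_one (hS p hp).1 A₁ B₁ (hA₁ p hp),
      card_dvd_one (hS p hp).1 A₂ B₂ (hA₂ p hp)]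
    rw [Finset.disjoint_left]
    intro r hr hr'
    have h1 := (Finset.mem_filter.1 hr).2
    have h2 := (Finset.mem_filter.1 hr').2
    apply hD p hp
    have : A₁ * B₂ - A₂ * B₁ = A₁ * (A₂ * r + B₂) - A₂ * (A₁ * r + B₁) := by ring
    rw [this]
    exact dvd_sub (Dvd.dvd.mul_left h2 _) (Dvd.dvd.mul_left h1 _)
  have key := sieve_count P (by
      intro p n
      rw [hPdef]
      simp only
      rw [show A₁ * (n + p) + B₁ = A₁ * n + B₁ + A₁ * p by ring,
        show A₂ * (n + p) + B₂ = A₂ * n + B₂ + A₂ * p by ring]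
      rw [dvd_add_left (Dvd.intro_left A₁ rfl), dvd_add_left (Dvd.intro_left A₂ rfl)])
    (z := z) (S := S)
    ⟨hz, fun p hp => (hS p hp).1, fun p hp => (hS p hp).2, fun p => by positivity,
      fun p hp => by
        rw [hc p hp]
        have : (3:ℝ) ≤ p := by exact_mod_cast h3 p hp
        rw [div_le_iff₀ (by linarith)]
        push_cast
        linarith,
      fun p hp => by
        rw [hc p hp]
        push_cast
        exact le_rfl⟩ (fun p hp => by rw [hc p hp]) X Y b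
  have e : ∏ p ∈ S, (1 - (cnt P p : ℝ) / p) = ∏ p ∈ S, (1 - (2 : ℝ) / p) := by
    apply Finset.prod_congr rfl
    intro p hp
    rw [hc p hp]; norm_num
  rw [e] at key
  exact key

/-- a sieving level for `H`: about `H^(1/600)` -/
noncomputable def lev (H : ℕ) : ℕ := ⌊(H : ℝ) ^ (1 / 600 : ℝ)⌋₊

lemma lev_pow_le (H : ℕ) : lev H ^ 600 ≤ H := by
  have h1 : (lev H : ℝ) ≤ (H : ℝ) ^ (1 / 600 : ℝ) := Nat.floor_le (by positivity)
  have h2 : (lev H : ℝ) ^ 600 ≤ ((H : ℝ) ^ (1 / 600 : ℝ)) ^ 600 :=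
    pow_le_pow_left₀ (by positivity) h1 600
  rw [← Real.rpow_natCast ((H : ℝ) ^ (1 / 600 : ℝ)), ← Real.rpow_mul (by positivity)] at h2
  norm_num at h2
  exact_mod_cast h2

lemma lt_lev_succ_pow (H : ℕ) : H < (lev H + 1) ^ 600 := by
  have h1 : (H : ℝ) ^ (1 / 600 : ℝ) < (lev H : ℝ) + 1 := Nat.lt_floor_add_one _
  have h2 : ((H : ℝ) ^ (1 / 600 : ℝ)) ^ 600 < ((lev H : ℝ) + 1) ^ 600 :=
    pow_lt_pow_left₀ h1 (by positivity) (by norm_num)
  rw [← Real.rpow_natCast ((H : ℝ) ^ (1 / 600 : ℝ)), ← Real.rpow_mul (by positivity)] at h2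
  norm_num at h2
  exact_mod_cast h2

lemma tendsto_lev : Filter.Tendsto lev Filter.atTop Filter.atTop := by
  unfold lev
  apply tendsto_nat_floor_atTop.comp
  exact (tendsto_rpow_atTop (by norm_num)).comp tendsto_natCast_atTop_atTop

lemma log_lev_ge {H : ℕ} (h2 : 2 ≤ lev H) : Real.log H / 1200 ≤ Real.log (lev H) := by
  have h3 : (lev H + 1) ≤ lev H ^ 2 := by nlinarith
  have h1 := lt_lev_succ_pow H
  have h0 : 0 < lev H := by omega
  have hH0 : (0:ℝ) < H := by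
    have : 0 < H := (pow_pos h0 600).trans_le (lev_pow_le H)
    exact_mod_cast this
  have h4 : H ≤ lev H ^ 1200 := by
    calc H ≤ (lev H + 1) ^ 600 := h1.le
      _ ≤ (lev H ^ 2) ^ 600 := Nat.pow_le_pow_left h3 _
      _ = lev H ^ 1200 := by rw [← pow_mul]
  have h5 : Real.log H ≤ 1200 * Real.log (lev H) := by
    have h6 : (H : ℝ) ≤ (lev H : ℝ) ^ 1200 := by exact_mod_cast h4
    have := Real.log_le_log hH0 h6
    rw [Real.log_pow] at this
    exact_mod_cast this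
  linarith

lemma epsB_31 : epsB 31 ≤ 1 := by
  unfold epsB
  have h1 : Real.exp 84 ≤ 16 ^ 31 := by
    have h2 : Real.exp 84 = Real.exp 1 ^ (84:ℕ) := by
      rw [← Real.exp_nat_mul]; norm_num
    rw [h2]
    have h3 : Real.exp 1 ≤ 2.7182818286 := Real.exp_one_lt_d9.le
    calc Real.exp 1 ^ (84:ℕ) ≤ (2.7182818286:ℝ) ^ (84:ℕ) := pow_le_pow_left₀ (Real.exp_pos _).le h3 _
      _ ≤ 16 ^ 31 := by norm_num
  calc Real.exp 84 * (1 / 16) ^ 31 ≤ 16 ^ 31 * (1 / 16) ^ 31 :=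
        mul_le_mul_of_nonneg_right h1 (by positivity)
    _ = 1 := by norm_num

lemma exp_epsB_31 : Real.exp (epsB 31) ≤ 3 := by
  calc Real.exp (epsB 31) ≤ Real.exp 1 := Real.exp_le_exp.2 epsB_31
    _ ≤ 3 := by linarith [Real.exp_one_lt_d9]

end Pool.Agent.Common_Sieve
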