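import Mathlib

set_option autoImplicit false

/-!
Brun-Hooley sieve, combinatorial part.  For a weight `g : ℕ → ℝ` and a finite set `s`,
`esum g s j` is the `j`-th elementary symmetric sum and `tsum g s b` the truncated
inclusion-exclusion sum.  The same inequality (Bonferroni) is used for indicators (pointwise
inequality) and for densities (main term).
-/

namespace Pool.Agent.Common_Sieve

open Finset

/-- elementary symmetric sum -/
def esum (g : ℕ → ℝ) (s : Finset ℕ) (j : ℕ) : ℝ := ∑ D ∈ s.powersetCard j, ∏ p ∈ D, g p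

/-- truncated inclusion exclusion (terms of size `≤ b`) -/
def btr (g : ℕ → ℝ) (s : Finset ℕ) (b : ℕ) : ℝ :=
  ∑ D ∈ s.powerset.filter (fun D => D.card ≤ b), (-1) ^ D.card * ∏ p ∈ D, g p

lemma esum_zero (g : ℕ → ℝ) (s : Finset ℕ) : esum g s 0 = 1 := by
  simp [esum]

lemma esum_empty_succ (g : ℕ → ℝ) (j : ℕ) : esum g ∅ (j + 1) = 0 := by
  unfold esum
  rw [Finset.powersetCard_eq_empty.2 (by simp)]
  simp

lemma esum_insert (g : ℕ → ℝ) {s : Finset ℕ} {a : ℕ} (ha : a ∉ s) (j : ℕ) :
    esum g (insert a s) (j + 1) = esum g s (j + 1) + g a * esum g s j := by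
  unfold esum
  rw [Finset.powersetCard_succ_insert ha, Finset.sum_union, Finset.mul_sum, Finset.sum_image]
  · congr 1
    apply Finset.sum_congr rfl
    intro D hD
    rw [Finset.prod_insert]
    intro h
    exact ha ((Finset.mem_powersetCard.1 hD).1 h)
  · intro D hD E hE h
    have h1 : a ∉ D := fun h => ha ((Finset.mem_powersetCard.1 hD).1 h)
    have h2 : a ∉ E := fun h => ha ((Finset.mem_powersetCard.1 hE).1 h)
    have := congrArg (fun X => X.erase a) h
    simpa [Finset.erase_insert h1, Finset.erase_insert h2] using this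
  · rw [Finset.disjoint_left]
    intro D hD hD'
    obtain ⟨E, _, rfl⟩ := Finset.mem_image.1 hD'
    exact ha ((Finset.mem_powersetCard.1 hD).1 (Finset.mem_insert_self _ _))

lemma esum_nonneg (g : ℕ → ℝ) {s : Finset ℕ} (hg : ∀ p ∈ s, 0 ≤ g p) (j : ℕ) :
    0 ≤ esum g s j := by
  unfold esum
  apply Finset.sum_nonneg
  intro D hD
  apply Finset.prod_nonneg
  intro p hp
  exact hg p ((Finset.mem_powersetCard.1 hD).1 hp)

lemma btr_zero (g : ℕ → ℝ) (s : Finset ℕ) : btr g s 0 = 1 := by
  unfold btr
  have : s.powerset.filter (fun D => D.card ≤ 0) = {∅} := by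
    ext D
    simp only [Finset.mem_filter, Finset.mem_powerset, Finset.mem_singleton, Nat.le_zero,
      Finset.card_eq_zero]
    constructor
    · rintro ⟨_, h⟩; exact h
    · rintro rfl; simp
  rw [this]; simp

lemma btr_succ (g : ℕ → ℝ) (s : Finset ℕ) (b : ℕ) :
    btr g s (b + 1) = btr g s b + (-1) ^ (b + 1) * esum g s (b + 1) := by
  unfold btr esum
  have : s.powerset.filter (fun D => D.card ≤ b + 1)
      = s.powerset.filter (fun D => D.card ≤ b) ∪ s.powersetCard (b + 1) := by
    ext D
    simp only [Finset.mem_filter, Finset.mem_powerset, Finset.mem_union,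
      Finset.mem_powersetCard]
    constructor
    · rintro ⟨h1, h2⟩
      rcases Nat.lt_or_ge D.card (b + 1) with h | h
      · left; exact ⟨h1, by omega⟩
      · right; exact ⟨h1, by omega⟩
    · rintro (⟨h1, h2⟩ | ⟨h1, h2⟩)
      · exact ⟨h1, by omega⟩
      · exact ⟨h1, by omega⟩
  rw [this, Finset.sum_union, Finset.mul_sum]
  · congr 1
    apply Finset.sum_congr rfl
    intro D hD
    rw [(Finset.mem_powersetCard.1 hD).2]
  · rw [Finset.disjoint_left]
    intro D hD hD'
    have h1 := (Finset.mem_filter.1 hD).2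
    have h2 := (Finset.mem_powersetCard.1 hD').2
    omega

lemma btr_empty (g : ℕ → ℝ) (b : ℕ) : btr g ∅ b = 1 := by
  induction b with
  | zero => exact btr_zero g ∅
  | succ b ih => rw [btr_succ, ih, esum_empty_succ]; ring

lemma btr_insert (g : ℕ → ℝ) {s : Finset ℕ} {a : ℕ} (ha : a ∉ s) (b : ℕ) :
    btr g (insert a s) (b + 1) = btr g s (b + 1) - g a * btr g s b := by
  induction b with
  | zero =>
    rw [btr_succ, btr_succ, btr_zero, btr_zero, esum_insert g ha, esum_zero]
    ring
  | succ b ih =>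
    rw [btr_succ, ih, esum_insert g ha, btr_succ g s (b + 1), btr_succ g s b]
    ring

/-- Bonferroni inequalities with sign. -/
lemma bonferroni_aux (g : ℕ → ℝ) (s : Finset ℕ) (hg : ∀ p ∈ s, 0 ≤ g p ∧ g p ≤ 1) :
    ∀ b : ℕ, 0 ≤ (-1) ^ b * (btr g s b - ∏ p ∈ s, (1 - g p)) ∧
      (-1) ^ b * (btr g s b - ∏ p ∈ s, (1 - g p)) ≤ esum g s (b + 1) := by
  induction s using Finset.induction_on with
  | empty =>
    intro b
    rw [btr_empty, esum_empty_succ]
    simp
  | insert a s ha ih =>
    have hgs : ∀ p ∈ s, 0 ≤ g p ∧ g p ≤ 1 := fun p hp => hg p (Finset.mem_insert_of_mem hp)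
    have hga := hg a (Finset.mem_insert_self a s)
    have hV0 : 0 ≤ ∏ p ∈ s, (1 - g p) :=
      Finset.prod_nonneg (fun p hp => by linarith [(hgs p hp).2])
    have hV1 : ∏ p ∈ s, (1 - g p) ≤ 1 := by
      apply Finset.prod_le_one
      · intro p hp; linarith [(hgs p hp).2]
      · intro p hp; linarith [(hgs p hp).1]
    intro b
    rw [Finset.prod_insert ha, esum_insert g ha]
    cases b with
    | zero =>
      have h0 := ih hgs 0
      rw [btr_zero] at h0 ⊢
      rw [esum_zero]
      simp only [pow_zero, one_mul, zero_add] at h0 ⊢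
      constructor
      · nlinarith [hga.1, hga.2]
      · nlinarith [hga.1, hga.2, h0.2]
    | succ b =>
      have h0 := ih hgs b
      have h1 := ih hgs (b + 1)
      rw [btr_insert g ha]
      have key : (-1 : ℝ) ^ (b + 1) * (btr g s (b + 1) - g a * btr g s b
          - (1 - g a) * ∏ p ∈ s, (1 - g p))
          = (-1 : ℝ) ^ (b + 1) * (btr g s (b + 1) - ∏ p ∈ s, (1 - g p))
          + g a * ((-1 : ℝ) ^ b * (btr g s b - ∏ p ∈ s, (1 - g p))) := by
        rw [pow_succ]; ring
      rw [key]
      constructor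
      · have := mul_nonneg hga.1 h0.1
        linarith [h1.1]
      · have := mul_le_mul_of_nonneg_left h0.2 hga.1
        linarith [h1.2]

lemma bonferroni (g : ℕ → ℝ) (s : Finset ℕ) (hg : ∀ p ∈ s, 0 ≤ g p ∧ g p ≤ 1) (b : ℕ)
    (hb : Even b) : ∏ p ∈ s, (1 - g p) ≤ btr g s b ∧
      btr g s b ≤ ∏ p ∈ s, (1 - g p) + esum g s (b + 1) := by
  have h := bonferroni_aux g s hg b
  rw [hb.neg_one_pow] at h
  constructor <;> linarith [h.1, h.2]

lemma btr_nonneg (g : ℕ → ℝ) (s : Finset ℕ) (hg : ∀ p ∈ s, 0 ≤ g p ∧ g p ≤ 1) (b : ℕ)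
    (hb : Even b) : 0 ≤ btr g s b := by
  refine le_trans ?_ (bonferroni g s hg b hb).1
  exact Finset.prod_nonneg (fun p hp => by linarith [(hg p hp).2])

/-- `e_j ≤ (∑ g)^j / j!` -/
lemma esum_le (g : ℕ → ℝ) (s : Finset ℕ) (hg : ∀ p ∈ s, 0 ≤ g p) :
    ∀ j : ℕ, esum g s j ≤ (∑ p ∈ s, g p) ^ j / (j.factorial : ℝ) := by
  induction s using Finset.induction_on with
  | empty =>
    intro j
    cases j with
    | zero => simp [esum_zero]
    | succ j => rw [esum_empty_succ]; simp
  | insert a s ha ih =>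
    have hgs : ∀ p ∈ s, 0 ≤ g p := fun p hp => hg p (Finset.mem_insert_of_mem hp)
    have hga := hg a (Finset.mem_insert_self a s)
    have hS : 0 ≤ ∑ p ∈ s, g p := Finset.sum_nonneg hgs
    intro j
    cases j with
    | zero => simp [esum_zero]
    | succ j =>
      rw [esum_insert g ha, Finset.sum_insert ha]
      have h1 := ih hgs (j + 1)
      have h2 := mul_le_mul_of_nonneg_left (ih hgs j) hga
      have hf : ((j + 1).factorial : ℝ) = (j + 1) * (j.factorial : ℝ) := by
        rw [Nat.factorial_succ]; push_cast; ring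
      have hfp : (0:ℝ) < (j.factorial : ℝ) := by exact_mod_cast j.factorial_pos
      have h3 : (∑ p ∈ s, g p) ^ (j + 1) + (j + 1) * g a * (∑ p ∈ s, g p) ^ j
          ≤ (g a + ∑ p ∈ s, g p) ^ (j + 1) := by
        generalize ∑ p ∈ s, g p = x at hS ⊢
        clear h1 h2 hf hfp
        induction j with
        | zero => simp; linarith
        | succ j ihj =>
          have e1 : (g a + x) ^ (j + 1 + 1) = (g a + x) ^ (j + 1) * (g a + x) := pow_succ _ _
          rw [e1]
          have h5 : 0 ≤ g a + x := by linarith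
          have h6 := mul_le_mul_of_nonneg_right ihj h5
          have h7 : 0 ≤ (j + 1 : ℝ) * g a * x ^ j * g a := by positivity
          push_cast
          have e2 : x ^ (j + 1 + 1) = x ^ (j + 1) * x := pow_succ _ _
          have e3 : x ^ (j + 1) = x ^ j * x := pow_succ _ _
          rw [e2]
          rw [e3] at h6 ⊢
          nlinarith [h6, h7]
      rw [hf]
      have h4 : (∑ p ∈ s, g p) ^ (j + 1) / ((j + 1) * (j.factorial : ℝ))
          + g a * ((∑ p ∈ s, g p) ^ j / (j.factorial : ℝ))
          = ((∑ p ∈ s, g p) ^ (j + 1) + (j + 1) * g a * (∑ p ∈ s, g p) ^ j)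
            / ((j + 1) * (j.factorial : ℝ)) := by
        have : (j + 1 : ℝ) ≠ 0 := by positivity
        field_simp
      rw [hf] at h1
      calc esum g s (j + 1) + g a * esum g s j
          ≤ (∑ p ∈ s, g p) ^ (j + 1) / ((j + 1) * (j.factorial : ℝ))
          + g a * ((∑ p ∈ s, g p) ^ j / (j.factorial : ℝ)) := by linarith
        _ = _ := h4
        _ ≤ _ := by
          apply div_le_div_of_nonneg_right h3
          positivity

end Pool.Agent.Common_Sieve
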