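import Pool.Agent.Common_Sieve.Main

set_option autoImplicit false

/-!
Counting integers of an interval in given residue classes (Chinese remainder theorem), and
the bound `∏_{p < w} (1 - 1/p) ≤ 1 / log w`.
-/

namespace Pool.Agent.Common_Sieve

open Finset

lemma card_crt (m p : ℕ) (hm : m ≠ 0) (hp : p ≠ 0) (co : m.Coprime p) (P Q : ℕ → Prop)
    [DecidablePred P] [DecidablePred Q]
    (hP : ∀ r, P r ↔ P (r % m)) (hQ : ∀ r, Q r ↔ Q (r % p)) :
    ((range (m * p)).filter (fun r => P r ∧ Q r)).card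
      = ((range m).filter P).card * ((range p).filter Q).card := by
  rw [← Finset.card_product]
  refine Finset.card_nbij' (fun r => (r % m, r % p))
    (fun x => (Nat.chineseRemainder co x.1 x.2 : ℕ)) ?_ ?_ ?_ ?_
  · intro r hr
    simp only [Finset.coe_filter, Finset.mem_range, Set.mem_ofPred_eq] at hr
    simp only [Finset.coe_product, Set.mem_prod, Finset.coe_filter, Finset.mem_range,
      Set.mem_ofPred_eq]
    exact ⟨⟨Nat.mod_lt _ (Nat.pos_of_ne_zero hm), (hP r).1 hr.2.1⟩,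
      ⟨Nat.mod_lt _ (Nat.pos_of_ne_zero hp), (hQ r).1 hr.2.2⟩⟩
  · rintro ⟨a, b⟩ hx
    simp only [Finset.coe_product, Set.mem_prod, Finset.coe_filter, Finset.mem_range,
      Set.mem_ofPred_eq] at hx
    obtain ⟨⟨ha, hPa⟩, ⟨hb, hQb⟩⟩ := hx
    simp only [Finset.coe_filter, Finset.mem_range, Set.mem_ofPred_eq]
    have h1 := (Nat.chineseRemainder co a b).2.1
    have h2 := (Nat.chineseRemainder co a b).2.2
    refine ⟨Nat.chineseRemainder_lt_mul co a b hm hp, ?_, ?_⟩
    · rw [hP, h1, Nat.mod_eq_of_lt ha]; exact hPa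
    · rw [hQ, h2, Nat.mod_eq_of_lt hb]; exact hQb
  · intro r hr
    simp only [Finset.coe_filter, Finset.mem_range, Set.mem_ofPred_eq] at hr
    simp only
    have h1 := (Nat.chineseRemainder co (r % m) (r % p)).2.1
    have h2 := (Nat.chineseRemainder co (r % m) (r % p)).2.2
    have h3 := Nat.chineseRemainder_lt_mul co (r % m) (r % p) hm hp
    have h4 : (Nat.chineseRemainder co (r % m) (r % p) : ℕ) ≡ r [MOD m * p] := by
      rw [← Nat.modEq_and_modEq_iff_modEq_mul co]
      exact ⟨h1.trans (Nat.mod_modEq r m), h2.trans (Nat.mod_modEq r p)⟩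
    exact Nat.ModEq.eq_of_lt_of_lt h4 h3 hr.1
  · rintro ⟨a, b⟩ hx
    simp only [Finset.coe_product, Set.mem_prod, Finset.coe_filter, Finset.mem_range,
      Set.mem_ofPred_eq] at hx
    obtain ⟨⟨ha, hPa⟩, ⟨hb, hQb⟩⟩ := hx
    have h1 := (Nat.chineseRemainder co a b).2.1
    have h2 := (Nat.chineseRemainder co a b).2.2
    simp only
    ext
    · simp only; rw [h1, Nat.mod_eq_of_lt ha]
    · simp only; rw [h2, Nat.mod_eq_of_lt hb]

lemma abs_card_modEq_sub_le (X : ℤ) (Y m : ℕ) (hm : 0 < m) (v : ℤ) :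
    |(((Finset.Ioc X (X + Y)).filter (fun n => n ≡ v [ZMOD m])).card : ℝ) - (Y : ℝ) / m| ≤ 1 := by
  have h1 := Int.Ioc_filter_modEq_card X (X + Y) (show (0:ℤ) < m by exact_mod_cast hm) v
  have hm' : (0:ℝ) < m := by exact_mod_cast hm
  set a := (((X + Y : ℤ) : ℚ) - v) / (m : ℤ) with ha
  set b := ((X : ℚ) - v) / (m : ℤ) with hb
  have hab : a - b = (Y : ℚ) / m := by
    rw [ha, hb]; push_cast; ring
  have hge : ⌊b⌋ ≤ ⌊a⌋ := by
    apply Int.floor_le_floor
    have : (0:ℚ) ≤ (Y : ℚ) / m := by positivity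
    linarith
  rw [max_eq_left (by omega)] at h1
  have h2 : (((Finset.Ioc X (X + Y)).filter (fun n => n ≡ v [ZMOD m])).card : ℚ)
      = (⌊a⌋ : ℚ) - (⌊b⌋ : ℚ) := by exact_mod_cast h1
  have h3 : |(((Finset.Ioc X (X + Y)).filter (fun n => n ≡ v [ZMOD m])).card : ℚ)
      - (Y : ℚ) / m| ≤ 1 := by
    rw [h2, ← hab, abs_le]
    constructor <;> linarith [Int.floor_le a, Int.lt_floor_add_one a, Int.floor_le b,
      Int.lt_floor_add_one b]
  have := (Rat.cast_le (K := ℝ)).2 h3
  push_cast at this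
  exact this

/-- number of bad residues -/
def cnt (P : ℕ → ℤ → Prop) [∀ p n, Decidable (P p n)] (p : ℕ) : ℕ :=
  ((range p).filter (fun r : ℕ => P p (r : ℤ))).card

variable (P : ℕ → ℤ → Prop) [∀ p n, Decidable (P p n)]

omit [∀ p n, Decidable (P p n)] in
lemma periodic_mod (hP : ∀ p n, P p (n + p) ↔ P p n) (p : ℕ) (n k : ℤ) :
    P p (n + k * p) ↔ P p n := by
  induction k using Int.induction_on with
  | zero => simp
  | succ k ih => rw [add_mul, one_mul, ← add_assoc, hP, ih]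
  | pred k ih =>
    rw [← hP p (n + (-(k:ℤ) - 1) * p)]
    rw [show n + (-(k:ℤ) - 1) * p + p = n + -(k:ℤ) * p by ring, ih]

lemma card_range_prod (hP : ∀ p n, P p (n + p) ↔ P p n) (D : Finset ℕ) (hD : ∀ p ∈ D, p.Prime) :
    ((range (∏ p ∈ D, p)).filter (fun r : ℕ => ∀ p ∈ D, P p (r : ℤ))).card = ∏ p ∈ D, cnt P p := by
  induction D using Finset.induction_on with
  | empty => simp
  | insert a D ha ih =>
    have hD' : ∀ p ∈ D, p.Prime := fun p hp => hD p (Finset.mem_insert_of_mem hp)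
    have hap : a.Prime := hD a (Finset.mem_insert_self _ _)
    rw [Finset.prod_insert ha, Finset.prod_insert ha, mul_comm, mul_comm (cnt P a), ← ih hD']
    have co : (∏ p ∈ D, p).Coprime a := by
      apply Nat.Coprime.prod_left
      intro p hp
      rw [Nat.coprime_primes (hD' p hp) hap]
      rintro rfl; exact ha hp
    have hm0 : ∏ p ∈ D, p ≠ 0 := (Finset.prod_pos (fun p hp => (hD' p hp).pos)).ne'
    have h1 := card_crt (∏ p ∈ D, p) a hm0 hap.ne_zero co (fun r : ℕ => ∀ p ∈ D, P p (r : ℤ))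
      (fun r : ℕ => P a (r : ℤ))
      (by
        intro r
        apply forall₂_congr
        intro p hp
        have hdvd : p ∣ ∏ p ∈ D, p := Finset.dvd_prod_of_mem _ hp
        obtain ⟨t, ht⟩ := hdvd
        have e : (r : ℤ) = ((r % (∏ p ∈ D, p) : ℕ) : ℤ) + ((t * (r / (∏ p ∈ D, p)) : ℕ) : ℤ) * p := by
          have := Nat.mod_add_div r (∏ p ∈ D, p)
          have h2 : r = r % (∏ p ∈ D, p) + t * (r / (∏ p ∈ D, p)) * p := by
            conv_lhs => rw [← this]
            have h3 : (∏ p ∈ D, p) * (r / (∏ p ∈ D, p)) = t * (r / (∏ p ∈ D, p)) * p := by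
              calc _ = (p * t) * (r / (∏ p ∈ D, p)) := by
                    rw [← ht]
                _ = _ := by ring
            rw [h3]
          exact_mod_cast h2
        conv_lhs => rw [e]
        exact periodic_mod P hP p _ _)
      (by
        intro r
        have e : (r : ℤ) = ((r % a : ℕ) : ℤ) + ((r / a : ℕ) : ℤ) * a := by
          have := Nat.mod_add_div r a
          have h2 : r = r % a + r / a * a := by
            rw [mul_comm]; exact this.symm
          exact_mod_cast h2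
        conv_lhs => rw [e]
        exact periodic_mod P hP a _ _)
    have h2 : ((range ((∏ p ∈ D, p) * a)).filter (fun r : ℕ => ∀ p ∈ insert a D, P p (r : ℤ)))
        = (range ((∏ p ∈ D, p) * a)).filter (fun r : ℕ => (∀ p ∈ D, P p (r : ℤ)) ∧ P a (r : ℤ)) := by
      apply Finset.filter_congr
      intro r _
      rw [Finset.forall_mem_insert, and_comm]
    rw [h2, h1]
    rfl

/-- Chinese remainder count in an interval. -/
theorem count_crt (hP : ∀ p n, P p (n + p) ↔ P p n) (D : Finset ℕ) (hD : ∀ p ∈ D, p.Prime)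
    (X : ℤ) (Y : ℕ) :
    |(((Finset.Ioc X (X + Y)).filter (fun n => ∀ p ∈ D, P p n)).card : ℝ)
      - (Y : ℝ) * ∏ p ∈ D, ((cnt P p : ℝ) / p)| ≤ ∏ p ∈ D, (cnt P p : ℝ) := by
  set m := ∏ p ∈ D, p with hm
  have hm0 : 0 < m := Finset.prod_pos (fun p hp => (hD p hp).pos)
  set R := (range m).filter (fun r : ℕ => ∀ p ∈ D, P p (r : ℤ)) with hR
  have hper : ∀ (n : ℤ), (∀ p ∈ D, P p n) ↔ (∀ p ∈ D, P p (((n % m).toNat : ℕ) : ℤ)) := by
    intro n
    apply forall₂_congr
    intro p hp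
    have hdvd : p ∣ m := Finset.dvd_prod_of_mem _ hp
    obtain ⟨t, ht⟩ := hdvd
    have h0 : 0 ≤ n % (m : ℤ) := Int.emod_nonneg _ (by exact_mod_cast hm0.ne')
    rw [Int.toNat_of_nonneg h0]
    have e : n = n % (m : ℤ) + (t * (n / m)) * p := by
      have := Int.emod_add_mul_ediv n m
      calc n = n % (m : ℤ) + m * (n / m) := this.symm
        _ = n % (m : ℤ) + (t * (n / m)) * p := by rw [ht]; push_cast; ring
    conv_lhs => rw [e]
    exact periodic_mod P hP p _ _
  have h1 : ((Finset.Ioc X (X + Y)).filter (fun n => ∀ p ∈ D, P p n)).card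
      = ∑ r ∈ R, (((Finset.Ioc X (X + Y)).filter (fun n => ∀ p ∈ D, P p n)).filter
        (fun n : ℤ => (n % (m : ℤ)).toNat = r)).card := by
    apply Finset.card_eq_sum_card_fiberwise
    intro n hn
    rw [Finset.mem_coe, Finset.mem_filter] at hn
    rw [hR, Finset.mem_coe, Finset.mem_filter, Finset.mem_range]
    refine ⟨?_, (hper n).1 hn.2⟩
    have h0 : 0 ≤ n % (m : ℤ) := Int.emod_nonneg _ (by exact_mod_cast hm0.ne')
    have h2 : n % (m : ℤ) < m := Int.emod_lt_of_pos _ (by exact_mod_cast hm0)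
    simp only
    omega
  have h2 : ∀ r ∈ R, (((Finset.Ioc X (X + Y)).filter (fun n => ∀ p ∈ D, P p n)).filter
        (fun n : ℤ => (n % (m : ℤ)).toNat = r))
      = (Finset.Ioc X (X + Y)).filter (fun n => n ≡ (r : ℤ) [ZMOD m]) := by
    intro r hr
    rw [hR, Finset.mem_filter, Finset.mem_range] at hr
    ext n
    simp only [Finset.mem_filter]
    have h0 : 0 ≤ n % (m : ℤ) := Int.emod_nonneg _ (by exact_mod_cast hm0.ne')
    have hrm : (r : ℤ) % m = r := Int.emod_eq_of_lt (by positivity) (by exact_mod_cast hr.1)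
    constructor
    · rintro ⟨⟨h3, _⟩, h5⟩
      refine ⟨h3, ?_⟩
      unfold Int.ModEq
      rw [hrm]
      omega
    · rintro ⟨h3, h4⟩
      unfold Int.ModEq at h4
      rw [hrm] at h4
      have h5 : (n % m).toNat = r := by omega
      refine ⟨⟨h3, ?_⟩, h5⟩
      rw [hper n, h5]
      exact hr.2
  have hRc : (R.card : ℝ) = ∏ p ∈ D, (cnt P p : ℝ) := by
    have := card_range_prod P hP D hD
    rw [← hm, ← hR] at this
    exact_mod_cast this
  have h3 : ∏ p ∈ D, ((cnt P p : ℝ) / p) = (R.card : ℝ) / m := by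
    rw [Finset.prod_div_distrib, hRc, hm]
    push_cast
    rfl
  rw [h1, h3]
  push_cast
  have h4 : (∑ r ∈ R, ((((Finset.Ioc X (X + Y)).filter (fun n => ∀ p ∈ D, P p n)).filter
        (fun n : ℤ => (n % (m : ℤ)).toNat = r)).card : ℝ)) - (Y : ℝ) * ((R.card : ℝ) / m)
      = ∑ r ∈ R, ((((Finset.Ioc X (X + Y)).filter (fun n => n ≡ (r : ℤ) [ZMOD m])).card : ℝ)
        - (Y : ℝ) / m) := by
    rw [Finset.sum_sub_distrib, Finset.sum_const, nsmul_eq_mul]
    congr 1
    · apply Finset.sum_congr rfl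
      intro r hr
      rw [h2 r hr]
    · ring
  rw [h4, ← hRc]
  calc _ ≤ ∑ r ∈ R, |(((Finset.Ioc X (X + Y)).filter (fun n => n ≡ (r : ℤ) [ZMOD m])).card : ℝ)
        - (Y : ℝ) / m| := Finset.abs_sum_le_sum_abs _ _
    _ ≤ ∑ r ∈ R, (1 : ℝ) := Finset.sum_le_sum (fun r _ => abs_card_modEq_sub_le X Y m hm0 r)
    _ = R.card := by simp

/-- Mertens product, upper bound. -/
theorem mertens_prod (w : ℕ) (hw : 2 ≤ w) :
    ∏ p ∈ w.primesBelow, (1 - (1:ℝ) / p) ≤ 1 / Real.log w := by
  let f : ℕ →* ℝ :=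
    { toFun := fun n => (1:ℝ) / n
      map_one' := by simp
      map_mul' := fun a b => by push_cast; rw [one_div_mul_one_div] }
  have hf : ∀ n : ℕ, f n = (1:ℝ) / n := fun n => rfl
  have h1 := EulerProduct.summable_and_hasSum_smoothNumbers_prod_primesBelow_geometric (f := f)
    (by
      intro p hp
      rw [hf, Real.norm_eq_abs, abs_of_nonneg (by positivity)]
      rw [div_lt_one (by exact_mod_cast hp.pos)]
      exact_mod_cast hp.one_lt) w
  have h2 : Real.log w ≤ ∏ p ∈ w.primesBelow, (1 - f p)⁻¹ := by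
    have h3 := Real.log_le_log (by exact_mod_cast (by omega : 0 < w)) (le_refl (w : ℝ))
    have h4 := log_add_one_le_harmonic (w - 1)
    have h5 : w - 1 + 1 = w := by omega
    rw [h5] at h4
    refine h4.trans ?_
    have h6 : (harmonic (w - 1) : ℝ) = ∑ n ∈ Finset.Icc 1 (w - 1), (1:ℝ) / n := by
      rw [harmonic_eq_sum_Icc]
      push_cast
      simp
    rw [h6]
    let emb : {x // x ∈ Finset.Icc 1 (w - 1)} → w.smoothNumbers := fun n =>
      ⟨n.1, Nat.mem_smoothNumbers_of_lt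
        (by have := Finset.mem_Icc.1 n.2; omega) (by have := Finset.mem_Icc.1 n.2; omega)⟩
    have hemb : Function.Injective emb := by
      intro a b hab
      have := congrArg Subtype.val hab
      exact Subtype.ext this
    have h7 := sum_le_hasSum ((Finset.Icc 1 (w - 1)).attach.map ⟨emb, hemb⟩)
      (fun m _ => by rw [hf]; positivity) h1.2
    refine le_trans (le_of_eq ?_) h7
    rw [Finset.sum_map, ← Finset.sum_attach]
    rfl
  have hlog : 0 < Real.log w := Real.log_pos (by exact_mod_cast hw)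
  rw [Finset.prod_inv_distrib] at h2
  have h8 : 0 < ∏ p ∈ w.primesBelow, (1 - f p) := by
    by_contra hcon
    have : (∏ p ∈ w.primesBelow, (1 - f p))⁻¹ ≤ 0 := inv_nonpos.2 (not_lt.1 hcon)
    linarith
  have h9 : ∏ p ∈ w.primesBelow, (1 - (1:ℝ) / p) = ∏ p ∈ w.primesBelow, (1 - f p) := rfl
  rw [h9, le_div_iff₀ hlog]
  calc _ ≤ (∏ p ∈ w.primesBelow, (1 - f p)) * (∏ p ∈ w.primesBelow, (1 - f p))⁻¹ :=
        mul_le_mul_of_nonneg_left h2 h8.le
    _ = 1 := mul_inv_cancel₀ h8.ne'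

end Pool.Agent.Common_Sieve
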