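import Pool.Agent.Common_Sieve.Product
import Pool.Agent.Common_Mertens.Mertens

set_option autoImplicit false

/-!
Brun-Hooley sieve: choice of the parameters and the three main statements
`upper_count`, `defect`, `expansion`.
-/

namespace Pool.Agent.Common_Sieve

open Finset

/-- break points: iterated integer square roots -/
def xs (z r : ℕ) : ℕ := Nat.sqrt^[r] z

lemma xs_zero (z : ℕ) : xs z 0 = z := rfl

lemma xs_succ (z r : ℕ) : xs z (r + 1) = Nat.sqrt (xs z r) := by
  unfold xs; rw [Function.iterate_succ_apply']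

lemma xs_succ' (z r : ℕ) : xs z (r + 1) = xs (Nat.sqrt z) r := by
  unfold xs; rw [Function.iterate_succ_apply]

lemma xs_anti (z : ℕ) : Antitone (xs z) := by
  apply antitone_nat_of_succ_le
  intro r
  rw [xs_succ]
  exact Nat.sqrt_le_self _

lemma xs_pos {z : ℕ} (hz : 1 ≤ z) (r : ℕ) : 1 ≤ xs z r := by
  induction r with
  | zero => exact hz
  | succ r ih => rw [xs_succ]; exact Nat.sqrt_pos.2 ih

lemma xs_le_sub (z r : ℕ) : xs z r ≤ max 1 (z - r) := by
  induction r with
  | zero => simp [xs_zero]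
  | succ r ih =>
    rw [xs_succ]
    rcases Nat.lt_or_ge (xs z r) 2 with h | h
    · have : Nat.sqrt (xs z r) ≤ xs z r := Nat.sqrt_le_self _
      omega
    · have : Nat.sqrt (xs z r) < xs z r := Nat.sqrt_lt_self h
      omega

lemma xs_end {z : ℕ} (hz : 1 ≤ z) : xs z z = 1 := by
  have h1 := xs_le_sub z z
  have h2 := xs_pos hz z
  omega

/-- the block `r` -/
def blk (z : ℕ) (S : Finset ℕ) (r : ℕ) : Finset ℕ :=
  S.filter (fun p => xs z (r + 1) ≤ p ∧ p < xs z r)

lemma blk_subset (z : ℕ) (S : Finset ℕ) (r : ℕ) : blk z S r ⊆ S := Finset.filter_subset _ _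

lemma blk_disj (z : ℕ) (S : Finset ℕ) (i j : ℕ) (hij : i ≠ j) :
    Disjoint (blk z S i) (blk z S j) := by
  rw [Finset.disjoint_left]
  intro p hp hp'
  have h1 := (Finset.mem_filter.1 hp).2
  have h2 := (Finset.mem_filter.1 hp').2
  rcases Nat.lt_or_gt_of_ne hij with h | h
  · have := xs_anti z (show i + 1 ≤ j by omega)
    omega
  · have := xs_anti z (show j + 1 ≤ i by omega)
    omega

lemma blk_union {z : ℕ} (hz : 1 ≤ z) {S : Finset ℕ} (hS : ∀ p ∈ S, 2 ≤ p ∧ p < z) :
    (range z).biUnion (blk z S) = S := by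
  ext p
  rw [Finset.mem_biUnion]
  constructor
  · rintro ⟨r, _, hr⟩; exact blk_subset z S r hr
  · intro hp
    have h1 := hS p hp
    have hex : ∃ r, xs z r ≤ p := ⟨z, by rw [xs_end hz]; omega⟩
    classical
    set r := Nat.find hex with hr
    have hr1 : xs z r ≤ p := Nat.find_spec hex
    have hr0 : r ≠ 0 := by
      intro h
      rw [h, xs_zero] at hr1
      omega
    have hr2 : ¬ xs z (r - 1) ≤ p := Nat.find_min hex (by omega)
    have hrz : r ≤ z := Nat.find_min' hex (by rw [xs_end hz]; omega)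
    refine ⟨r - 1, Finset.mem_range.2 (by omega), ?_⟩
    rw [blk, Finset.mem_filter]
    refine ⟨hp, ?_, by omega⟩
    rw [show r - 1 + 1 = r by omega]
    exact hr1

/-- product of the break points with growing exponents -/
lemma prod_xs_pow_le (R : ℕ) : ∀ (z a : ℕ), 1 ≤ z →
    ∏ r ∈ range R, xs z r ^ (a + 2 * r) ≤ z ^ (2 * a + 4) := by
  induction R with
  | zero => intro z a hz; simp; exact Nat.one_le_pow _ _ hz
  | succ R ih =>
    intro z a hz
    rw [Finset.prod_range_succ']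
    have h1 : ∏ k ∈ range R, xs z (k + 1) ^ (a + 2 * (k + 1))
        = ∏ k ∈ range R, xs (Nat.sqrt z) k ^ (a + 2 + 2 * k) := by
      apply Finset.prod_congr rfl
      intro k _
      rw [xs_succ']
      congr 1
      ring
    rw [h1, xs_zero]
    have h2 := ih (Nat.sqrt z) (a + 2) (Nat.sqrt_pos.2 hz)
    have h3 : Nat.sqrt z ^ (2 * (a + 2) + 4) ≤ z ^ (a + 4) := by
      have : Nat.sqrt z ^ (2 * (a + 2) + 4) = (Nat.sqrt z * Nat.sqrt z) ^ (a + 4) := by
        rw [← pow_two, ← pow_mul]; congr 1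
      rw [this]
      exact Nat.pow_le_pow_left (Nat.sqrt_le z) _
    calc _ ≤ z ^ (a + 4) * z ^ (a + 2 * 0) := Nat.mul_le_mul (h2.trans h3) le_rfl
      _ = z ^ (2 * a + 4) := by rw [← pow_add]; congr 1; ring

/-- Mertens in a block -/
lemma mertens_block (x : ℕ) (hx : 1 ≤ x) :
    ∑ p ∈ (range ((x + 1) ^ 2)).filter (fun p => p.Prime ∧ x ≤ p), (1 : ℝ) / p ≤ 6 := by
  rcases Nat.eq_or_lt_of_le hx with h1 | h1
  · subst h1
    have : (range ((1 + 1) ^ 2)).filter (fun p => p.Prime ∧ 1 ≤ p) = {2, 3} := by decide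
    rw [this]; norm_num
  · have hx2 : 2 ≤ x := h1
    have hlx : 0 < Real.log x := Real.log_pos (by exact_mod_cast h1)
    have h2 : ∑ p ∈ (range ((x + 1) ^ 2)).filter (fun p => p.Prime ∧ x ≤ p), (1 : ℝ) / p
        ≤ ∑ p ∈ (range ((x + 1) ^ 2)).filter (fun p => p.Prime ∧ x ≤ p),
          (1 / Real.log x) * (Real.log p / p) := by
      apply Finset.sum_le_sum
      intro p hp
      obtain ⟨_, hpp, hxp⟩ := Finset.mem_filter.1 hp
      have hp0 : (0:ℝ) < p := by exact_mod_cast hpp.pos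
      have hle : Real.log x ≤ Real.log p :=
        Real.log_le_log (by exact_mod_cast (by omega : 0 < x)) (by exact_mod_cast hxp)
      rw [show 1 / Real.log x * (Real.log p / p) = (Real.log p / Real.log x) * (1 / p) by
        field_simp]
      have : 1 ≤ Real.log p / Real.log x := by rw [le_div_iff₀ hlx]; linarith
      have h0 : (0:ℝ) ≤ 1 / p := by positivity
      nlinarith
    have h3 : ∑ p ∈ (range ((x + 1) ^ 2)).filter (fun p => p.Prime ∧ x ≤ p), Real.log p / (p:ℝ)
        ≤ ∑ p ∈ Nat.primesLE ((x + 1) ^ 2), Real.log p / (p:ℝ) := by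
      apply Finset.sum_le_sum_of_subset_of_nonneg
      · intro p hp
        obtain ⟨hp1, hpp, hxp⟩ := Finset.mem_filter.1 hp
        rw [Nat.mem_primesLE]
        exact ⟨(Finset.mem_range.1 hp1).le, hpp⟩
      · intro p hp _
        have hp1 := (Nat.mem_primesLE.1 hp).2
        have : 0 ≤ Real.log p := Real.log_nonneg (by exact_mod_cast hp1.one_le)
        positivity
    have h4 := Common_Mertens.sum_log_div_le (n := (x + 1) ^ 2) (Nat.one_le_pow _ _ (by omega))
    have h5 : Real.log (((x + 1) ^ 2 : ℕ) : ℝ) ≤ 4 * Real.log x := by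
      have e : (((x + 1) ^ 2 : ℕ) : ℝ) ≤ (x : ℝ) ^ 4 := by
        have : (x + 1) ^ 2 ≤ x ^ 4 := by
          have : x + 1 ≤ x ^ 2 := by nlinarith
          calc (x + 1) ^ 2 ≤ (x ^ 2) ^ 2 := Nat.pow_le_pow_left this 2
            _ = x ^ 4 := by ring
        exact_mod_cast this
      have := Real.log_le_log (by positivity) e
      rw [Real.log_pow] at this
      exact_mod_cast this
    have h6 : Real.log 4 ≤ 2 * Real.log x := by
      have : Real.log 4 = 2 * Real.log 2 := by
        rw [show (4:ℝ) = 2 ^ 2 by norm_num, Real.log_pow]; norm_num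
      rw [this]
      have : Real.log 2 ≤ Real.log x := Real.log_le_log (by norm_num) (by exact_mod_cast hx2)
      linarith
    rw [← Finset.mul_sum] at h2
    calc _ ≤ 1 / Real.log x * (6 * Real.log x) := by
          refine h2.trans ?_
          apply mul_le_mul_of_nonneg_left _ (by positivity)
          linarith
      _ = 6 := by field_simp

lemma blk_sum_le {z : ℕ} (hz : 1 ≤ z) {S : Finset ℕ} (hS : ∀ p ∈ S, p.Prime) {g : ℕ → ℝ}
    (hg : ∀ p ∈ S, g p ≤ 2 / p) (r : ℕ) : ∑ p ∈ blk z S r, g p ≤ 12 := by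
  have h1 : ∑ p ∈ blk z S r, g p ≤ ∑ p ∈ blk z S r, 2 * ((1:ℝ) / p) := by
    apply Finset.sum_le_sum
    intro p hp
    have := hg p (blk_subset z S r hp)
    rw [mul_one_div]; exact this
  have h2 : ∑ p ∈ blk z S r, (1:ℝ) / p
      ≤ ∑ p ∈ (range ((xs z (r + 1) + 1) ^ 2)).filter (fun p => p.Prime ∧ xs z (r + 1) ≤ p),
        (1 : ℝ) / p := by
    apply Finset.sum_le_sum_of_subset_of_nonneg
    · intro p hp
      obtain ⟨hpS, h3, h4⟩ := Finset.mem_filter.1 hp
      rw [Finset.mem_filter, Finset.mem_range]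
      refine ⟨?_, hS p hpS, h3⟩
      rw [xs_succ]
      have := Nat.lt_succ_sqrt (xs z r)
      rw [Nat.succ_eq_add_one] at this
      nlinarith
    · intro p _ _; positivity
  rw [← Finset.mul_sum] at h1
  have h3 := mertens_block (xs z (r + 1)) (xs_pos hz _)
  linarith

lemma one_sub_ge_exp {x : ℝ} (h0 : 0 ≤ x) (h1 : x ≤ 2 / 3) : Real.exp (-(3 * x)) ≤ 1 - x := by
  have h2 : 1 + 3 * x ≤ Real.exp (3 * x) := by linarith [Real.add_one_le_exp (3 * x)]
  have h3 : Real.exp (-(3 * x)) = 1 / Real.exp (3 * x) := by rw [Real.exp_neg, one_div]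
  rw [h3, div_le_iff₀ (Real.exp_pos _)]
  have h4 : (1 - x) * (1 + 3 * x) ≤ (1 - x) * Real.exp (3 * x) :=
    mul_le_mul_of_nonneg_left h2 (by linarith)
  nlinarith

/-- number of prime factors allowed in block `r` -/
def bb (B r : ℕ) : ℕ := 2 * B + 2 * r

/-- the relative error of the sieve -/
noncomputable def epsB (B : ℕ) : ℝ := Real.exp 84 * (1 / 16) ^ B

lemma epsB_pos (B : ℕ) : 0 < epsB B := by unfold epsB; positivity

/-- conditions on the sieving data -/
structure Data (z : ℕ) (S : Finset ℕ) (g : ℕ → ℝ) : Prop where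
  one_le : 1 ≤ z
  prime : ∀ p ∈ S, p.Prime
  lt : ∀ p ∈ S, p < z
  nonneg : ∀ p, 0 ≤ g p
  le : ∀ p ∈ S, g p ≤ 2 / 3
  le' : ∀ p ∈ S, g p ≤ 2 / p

variable {z : ℕ} {S : Finset ℕ} {g : ℕ → ℝ}

lemma V_blk_ge (h : Data z S g) (r : ℕ) :
    Real.exp (-36) ≤ ∏ p ∈ blk z S r, (1 - g p) := by
  have h1 : Real.exp (-(3 * ∑ p ∈ blk z S r, g p)) ≤ ∏ p ∈ blk z S r, (1 - g p) := by
    rw [Finset.mul_sum, ← Finset.sum_neg_distrib, Real.exp_sum]
    apply Finset.prod_le_prod
    · intro p _; positivity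
    · intro p hp
      exact one_sub_ge_exp (h.nonneg p) (h.le p (blk_subset z S r hp))
  refine le_trans ?_ h1
  rw [Real.exp_le_exp]
  have := blk_sum_le h.one_le h.prime h.le' r
  linarith

lemma E_le (h : Data z S g) (B r : ℕ) :
    esum g (blk z S r) (bb B r + 1) ≤ Real.exp 48 * (1 / 4) ^ (bb B r + 1) := by
  have h1 := esum_le g (blk z S r) (fun p _ => h.nonneg p) (bb B r + 1)
  have h2 := blk_sum_le h.one_le h.prime h.le' r
  have h3 : 0 ≤ ∑ p ∈ blk z S r, g p := Finset.sum_nonneg (fun p _ => h.nonneg p)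
  set m := bb B r + 1 with hm
  have h4 : (∑ p ∈ blk z S r, g p) ^ m / (m.factorial : ℝ) ≤ 12 ^ m / (m.factorial : ℝ) := by
    apply div_le_div_of_nonneg_right _ (by positivity)
    exact pow_le_pow_left₀ h3 h2 m
  have h5 : (48:ℝ) ^ m / (m.factorial : ℝ) ≤ Real.exp 48 :=
    Real.pow_div_factorial_le_exp 48 (by norm_num) m
  have h6 : (12:ℝ) ^ m / (m.factorial : ℝ) = (48:ℝ) ^ m / (m.factorial : ℝ) * (1 / 4) ^ m := by
    rw [show (48:ℝ) = 12 * 4 by norm_num, mul_pow]
    have : (4:ℝ) ^ m * (1 / 4) ^ m = 1 := by rw [← mul_pow]; norm_num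
    field_simp
    rw [this]
  calc _ ≤ 12 ^ m / (m.factorial : ℝ) := h1.trans h4
    _ = (48:ℝ) ^ m / (m.factorial : ℝ) * (1 / 4) ^ m := h6
    _ ≤ _ := mul_le_mul_of_nonneg_right h5 (by positivity)

lemma E_div_V_le (h : Data z S g) (B r : ℕ) :
    esum g (blk z S r) (bb B r + 1)
      ≤ (Real.exp 84 * (1 / 4) ^ (bb B r + 1)) * ∏ p ∈ blk z S r, (1 - g p) := by
  have h1 := E_le h B r
  have h2 := V_blk_ge h r
  have h3 : Real.exp 84 * Real.exp (-36) = Real.exp 48 := by rw [← Real.exp_add]; norm_num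
  calc _ ≤ Real.exp 48 * (1 / 4) ^ (bb B r + 1) := h1
    _ = (Real.exp 84 * (1 / 4) ^ (bb B r + 1)) * Real.exp (-36) := by rw [← h3]; ring
    _ ≤ _ := mul_le_mul_of_nonneg_left h2 (by positivity)

lemma sum_eps_le (B R : ℕ) :
    ∑ r ∈ range R, Real.exp 84 * (1 / 4 : ℝ) ^ (bb B r + 1) ≤ epsB B := by
  unfold epsB
  rw [← Finset.mul_sum]
  apply mul_le_mul_of_nonneg_left _ (Real.exp_pos _).le
  have h1 : ∀ r ∈ range R, (1 / 4 : ℝ) ^ (bb B r + 1) = (1 / 16) ^ B * ((1 / 4) * (1 / 16) ^ r) := by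
    intro r _
    unfold bb
    rw [pow_add, pow_add, pow_mul, pow_mul]
    norm_num
    ring
  rw [Finset.sum_congr rfl h1, ← Finset.mul_sum, ← Finset.mul_sum]
  have h2 : ∑ r ∈ range R, (1 / 16 : ℝ) ^ r ≤ 16 / 15 := by
    have := geom_sum_eq (show (1 / 16 : ℝ) ≠ 1 by norm_num) R
    rw [this]
    have : (0:ℝ) < (1 / 16) ^ R := by positivity
    rw [div_le_iff_of_neg (by norm_num)]
    linarith
  have h3 : (0:ℝ) < (1 / 16) ^ B := by positivity
  nlinarith

lemma prod_blk (h : Data z S g) (f : ℕ → ℝ) :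
    ∏ r ∈ range z, ∏ p ∈ blk z S r, f p = ∏ p ∈ S, f p := by
  rw [← Finset.prod_biUnion, blk_union h.one_le]
  · intro p hp; exact ⟨(h.prime p hp).two_le, h.lt p hp⟩
  · intro i _ j _ hij; exact blk_disj z S i j hij

/-- the upper bound sieve function -/
def Ufun (z : ℕ) (S : Finset ℕ) (B : ℕ) (f : ℕ → ℝ) : ℝ :=
  ∏ r ∈ range z, btr f (blk z S r) (bb B r)

lemma Ufun_mean_le (h : Data z S g) (B : ℕ) :
    Ufun z S B g ≤ (∏ p ∈ S, (1 - g p)) * Real.exp (epsB B) := by
  unfold Ufun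
  have hg01 : ∀ p ∈ S, 0 ≤ g p ∧ g p ≤ 1 := fun p hp =>
    ⟨h.nonneg p, (h.le p hp).trans (by norm_num)⟩
  have hV : ∀ r, 0 ≤ ∏ p ∈ blk z S r, (1 - g p) := fun r =>
    (Real.exp_pos _).le.trans (V_blk_ge h r)
  calc ∏ r ∈ range z, btr g (blk z S r) (bb B r)
      ≤ ∏ r ∈ range z, ((∏ p ∈ blk z S r, (1 - g p))
          * Real.exp (Real.exp 84 * (1 / 4) ^ (bb B r + 1))) := by
        apply Finset.prod_le_prod
        · intro r _
          exact btr_nonneg g _ (fun p hp => hg01 p (blk_subset z S r hp)) _ (by unfold bb; exact ⟨B + r, by ring⟩)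
        · intro r _
          have h1 := (bonferroni g (blk z S r) (fun p hp => hg01 p (blk_subset z S r hp)) (bb B r)
            (by unfold bb; exact ⟨B + r, by ring⟩)).2
          have h2 := E_div_V_le h B r
          have h3 := Real.add_one_le_exp (Real.exp 84 * (1 / 4 : ℝ) ^ (bb B r + 1))
          have h4 := mul_le_mul_of_nonneg_left h3 (hV r)
          linarith
    _ = (∏ p ∈ S, (1 - g p)) * Real.exp (∑ r ∈ range z, Real.exp 84 * (1 / 4) ^ (bb B r + 1)) := by
        rw [Finset.prod_mul_distrib, prod_blk h, Real.exp_sum]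
    _ ≤ _ := by
        apply mul_le_mul_of_nonneg_left
        · rw [Real.exp_le_exp]; exact sum_eps_le B z
        · apply Finset.prod_nonneg
          intro p hp
          linarith [(hg01 p hp).2]

lemma Zbound {z : ℕ} (hz : 1 ≤ z) (B : ℕ) :
    ∏ r ∈ range z, xs z r ^ (bb B r + 1) ≤ z ^ (4 * B + 6) := by
  have h1 := prod_xs_pow_le z z (2 * B + 1) hz
  have h2 : ∏ r ∈ range z, xs z r ^ (bb B r + 1) = ∏ r ∈ range z, xs z r ^ (2 * B + 1 + 2 * r) := by
    apply Finset.prod_congr rfl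
    intro r _
    unfold bb
    congr 1
    ring
  rw [h2]
  calc _ ≤ _ := h1
    _ = _ := by congr 1; ring

/-- local family `card ≤ b` or, at the place `s`, `card = b + 1` -/
def TT (z : ℕ) (S : Finset ℕ) (B : ℕ) (s : Option ℕ) (r : ℕ) : Finset (Finset ℕ) :=
  if s = some r then (blk z S r).powersetCard (bb B r + 1)
  else (blk z S r).powerset.filter (fun D => D.card ≤ bb B r)

/-- local weight -/
def ww (s : Option ℕ) (r : ℕ) (D : Finset ℕ) : ℝ := if s = some r then 1 else (-1) ^ D.card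

lemma loc_TT (z : ℕ) (S : Finset ℕ) (B : ℕ) (s : Option ℕ) (r : ℕ) (f : ℕ → ℝ) :
    loc (TT z S B s r) (ww s r) f
      = if s = some r then esum f (blk z S r) (bb B r + 1) else btr f (blk z S r) (bb B r) := by
  unfold TT
  split_ifs with h
  · rw [esum_eq_loc]
    unfold loc ww
    simp [h]
  · rw [btr_eq_loc]
    unfold loc ww
    simp [h]

/-- averaging, all cases at once -/
lemma avg_TT (h : Data z S g) {α : Type*} (X : Finset α) (ind : α → ℕ → ℝ) (M : ℝ)
    (B : ℕ) (s : Option ℕ)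
    (herr : ∀ D : Finset ℕ, D ⊆ S →
      |∑ n ∈ X, ∏ p ∈ D, ind n p - M * ∏ p ∈ D, g p| ≤ 2 ^ D.card) :
    |∑ n ∈ X, ∏ r ∈ range z, (if s = some r then esum (ind n) (blk z S r) (bb B r + 1)
        else btr (ind n) (blk z S r) (bb B r))
      - M * ∏ r ∈ range z, (if s = some r then esum g (blk z S r) (bb B r + 1)
        else btr g (blk z S r) (bb B r))| ≤ (z : ℝ) ^ (8 * B + 12) := by
  have hU : (range z).biUnion (blk z S) = S :=
    blk_union h.one_le (fun p hp => ⟨(h.prime p hp).two_le, h.lt p hp⟩)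
  have key := avg X ind g M (blk z S) (TT z S B s) (ww s) (blk_disj z S)
    (by
      intro r
      unfold TT
      split_ifs
      · intro D hD
        rw [Finset.mem_powerset]
        exact (Finset.mem_powersetCard.1 hD).1
      · exact Finset.filter_subset _ _)
    (by
      intro r D _
      unfold ww
      split_ifs
      · simp
      · simp [abs_pow])
    (fun r p hp => h.prime p (blk_subset z S r hp)) z (xs z) (fun r => bb B r + 1)
    (fun r p hp => ((Finset.mem_filter.1 hp).2.2).le)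
    (xs_pos h.one_le)
    (by
      intro r D hD
      unfold TT at hD
      split_ifs at hD
      · exact (Finset.mem_powersetCard.1 hD).2.le
      · exact ((Finset.mem_filter.1 hD).2).trans (Nat.le_succ _))
    (by intro D hD; rw [hU] at hD; exact herr D hD)
  have e : ((∏ r ∈ range z, xs z r ^ (bb B r + 1) : ℕ) : ℝ) ^ 2 ≤ (z : ℝ) ^ (8 * B + 12) := by
    have h1 : ((∏ r ∈ range z, xs z r ^ (bb B r + 1) : ℕ) : ℝ) ≤ (z : ℝ) ^ (4 * B + 6) := by
      exact_mod_cast Zbound h.one_le B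
    calc _ ≤ ((z : ℝ) ^ (4 * B + 6)) ^ 2 := by
          apply pow_le_pow_left₀ (by positivity) h1
      _ = _ := by rw [← pow_mul]; congr 1; ring
  simp only [loc_TT] at key
  exact key.trans e

/-- Indicator-type weights -/
def IsInd (f : ℕ → ℝ) : Prop := ∀ p, 0 ≤ f p ∧ f p ≤ 1

lemma Ufun_ge {f : ℕ → ℝ} (hf : IsInd f) (h : Data z S g) (B : ℕ) :
    ∏ p ∈ S, (1 - f p) ≤ Ufun z S B f := by
  rw [← prod_blk h (fun p => 1 - f p)]
  unfold Ufun
  apply Finset.prod_le_prod
  · intro r _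
    exact Finset.prod_nonneg (fun p _ => by linarith [(hf p).2])
  · intro r _
    exact (bonferroni f (blk z S r) (fun p _ => hf p) (bb B r)
      (by unfold bb; exact ⟨B + r, by ring⟩)).1

/-- Upper bound sieve: total mass of the upper bound function. -/
theorem upper_mass (h : Data z S g) {α : Type*} (X : Finset α) (ind : α → ℕ → ℝ)
    (M : ℝ) (hM : 0 ≤ M) (B : ℕ)
    (herr : ∀ D : Finset ℕ, D ⊆ S →
      |∑ n ∈ X, ∏ p ∈ D, ind n p - M * ∏ p ∈ D, g p| ≤ 2 ^ D.card) :
    ∑ n ∈ X, Ufun z S B (ind n) ≤ M * (∏ p ∈ S, (1 - g p)) * Real.exp (epsB B)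
      + (z : ℝ) ^ (8 * B + 12) := by
  have h1 := avg_TT h X ind M B none herr
  simp only [reduceCtorEq, if_false] at h1
  have h2 := (abs_le.1 h1).2
  have h3 := mul_le_mul_of_nonneg_left (Ufun_mean_le h B) hM
  unfold Ufun at h3 ⊢
  linarith

/-- Upper bound sieve. -/
theorem upper_count (h : Data z S g) {α : Type*} (X : Finset α) (ind : α → ℕ → ℝ)
    (hind : ∀ n ∈ X, IsInd (ind n)) (M : ℝ) (hM : 0 ≤ M) (B : ℕ)
    (herr : ∀ D : Finset ℕ, D ⊆ S →
      |∑ n ∈ X, ∏ p ∈ D, ind n p - M * ∏ p ∈ D, g p| ≤ 2 ^ D.card) :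
    ∑ n ∈ X, ∏ p ∈ S, (1 - ind n p) ≤ M * (∏ p ∈ S, (1 - g p)) * Real.exp (epsB B)
      + (z : ℝ) ^ (8 * B + 12) := by
  refine le_trans ?_ (upper_mass h X ind M hM B herr)
  apply Finset.sum_le_sum
  intro n hn
  exact Ufun_ge (hind n hn) h B

/-- `L^1` defect of the upper bound sieve function. -/
theorem defect (h : Data z S g) {α : Type*} (X : Finset α) (ind : α → ℕ → ℝ)
    (hind : ∀ n ∈ X, IsInd (ind n)) (M : ℝ) (hM : 0 ≤ M) (B : ℕ)
    (herr : ∀ D : Finset ℕ, D ⊆ S →
      |∑ n ∈ X, ∏ p ∈ D, ind n p - M * ∏ p ∈ D, g p| ≤ 2 ^ D.card) :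
    ∑ n ∈ X, (Ufun z S B (ind n) - ∏ p ∈ S, (1 - ind n p))
      ≤ M * (∏ p ∈ S, (1 - g p)) * (epsB B * Real.exp (epsB B)) + z * (z : ℝ) ^ (8 * B + 12) := by
  have hbbe : ∀ r, Even (bb B r) := fun r => by unfold bb; exact ⟨B + r, by ring⟩
  have hg01 : ∀ p ∈ S, 0 ≤ g p ∧ g p ≤ 1 := fun p hp =>
    ⟨h.nonneg p, (h.le p hp).trans (by norm_num)⟩
  have hpt : ∀ n ∈ X, Ufun z S B (ind n) - ∏ p ∈ S, (1 - ind n p)
      ≤ ∑ s ∈ range z, ∏ r ∈ range z, (if some s = some r
        then esum (ind n) (blk z S r) (bb B r + 1) else btr (ind n) (blk z S r) (bb B r)) := by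
    intro n hn
    have h1 := prod_sub_prod_le z (fun r => btr (ind n) (blk z S r) (bb B r))
      (fun r => ∏ p ∈ blk z S r, (1 - ind n p)) (fun r => esum (ind n) (blk z S r) (bb B r + 1))
      (fun r => Finset.prod_nonneg (fun p _ => by linarith [(hind n hn p).2]))
      (fun r => (bonferroni _ _ (fun p _ => hind n hn p) _ (hbbe r)).1)
      (fun r => by
        have := (bonferroni _ (blk z S r) (fun p _ => hind n hn p) _ (hbbe r)).2
        linarith)
    rw [prod_blk h (fun p => 1 - ind n p)] at h1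
    refine h1.trans (le_of_eq ?_)
    apply Finset.sum_congr rfl
    intro s _
    apply Finset.prod_congr rfl
    intro r _
    by_cases hrs : r = s
    · simp [hrs]
    · have : ¬ (some s = some r) := by simpa using fun h => hrs h.symm
      simp [hrs, this]
  have hsum := Finset.sum_le_sum hpt
  rw [Finset.sum_comm] at hsum
  refine hsum.trans ?_
  have hterm : ∀ s ∈ range z, ∑ n ∈ X, ∏ r ∈ range z, (if some s = some r
        then esum (ind n) (blk z S r) (bb B r + 1) else btr (ind n) (blk z S r) (bb B r))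
      ≤ M * ((∏ p ∈ S, (1 - g p)) * Real.exp (epsB B)
          * (Real.exp 84 * (1 / 4) ^ (bb B s + 1))) + (z : ℝ) ^ (8 * B + 12) := by
    intro s hs
    have h1 := (abs_le.1 (avg_TT h X ind M B (some s) herr)).2
    have h2 : ∏ r ∈ range z, (if some s = some r then esum g (blk z S r) (bb B r + 1)
        else btr g (blk z S r) (bb B r))
        ≤ (∏ p ∈ S, (1 - g p)) * Real.exp (epsB B) * (Real.exp 84 * (1 / 4) ^ (bb B s + 1)) := by
      have hbtr : ∀ r, 0 ≤ btr g (blk z S r) (bb B r) := fun r =>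
        btr_nonneg g _ (fun p hp => hg01 p (blk_subset z S r hp)) _ (hbbe r)
      have e1 : ∏ r ∈ range z, (if some s = some r then esum g (blk z S r) (bb B r + 1)
        else btr g (blk z S r) (bb B r))
          ≤ ∏ r ∈ range z, ((if s = r then (Real.exp 84 * (1 / 4) ^ (bb B r + 1)) else 1)
            * btr g (blk z S r) (bb B r)) := by
        apply Finset.prod_le_prod
        · intro r _
          split_ifs
          · exact esum_nonneg g (fun p hp => h.nonneg p) _
          · exact hbtr r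
        · intro r _
          by_cases hrs : s = r
          · subst hrs
            simp only [if_true]
            have e2 := E_div_V_le h B s
            have e3 := (bonferroni g (blk z S s) (fun p hp => hg01 p (blk_subset z S s hp)) (bb B s)
              (hbbe s)).1
            have e4 : (0:ℝ) ≤ Real.exp 84 * (1 / 4) ^ (bb B s + 1) := by positivity
            have e5 := mul_le_mul_of_nonneg_left e3 e4
            linarith
          · have : ¬ (some s = some r) := by simpa using hrs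
            simp [hrs, this]
      have e2 : ∏ r ∈ range z, (if s = r then (Real.exp 84 * (1 / 4 : ℝ) ^ (bb B r + 1)) else 1)
          = Real.exp 84 * (1 / 4) ^ (bb B s + 1) := by
        rw [Finset.prod_ite_eq]
        simp [hs]
      rw [Finset.prod_mul_distrib, e2] at e1
      have e3 := Ufun_mean_le h B
      unfold Ufun at e3
      have e4 : (0:ℝ) ≤ Real.exp 84 * (1 / 4) ^ (bb B s + 1) := by positivity
      have e5 := mul_le_mul_of_nonneg_left e3 e4
      linarith
    have h3 := mul_le_mul_of_nonneg_left h2 hM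
    linarith
  refine (Finset.sum_le_sum hterm).trans ?_
  rw [Finset.sum_add_distrib, Finset.sum_const, Finset.card_range, nsmul_eq_mul]
  apply add_le_add _ le_rfl
  rw [← Finset.mul_sum, ← Finset.mul_sum]
  have h5 := sum_eps_le B z
  have h6 : 0 ≤ M * (∏ p ∈ S, (1 - g p)) * Real.exp (epsB B) := by
    have : 0 ≤ ∏ p ∈ S, (1 - g p) := Finset.prod_nonneg (fun p hp => by linarith [(hg01 p hp).2])
    positivity
  have h7 := mul_le_mul_of_nonneg_left h5 h6
  calc _ = M * (∏ p ∈ S, (1 - g p)) * Real.exp (epsB B)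
        * ∑ r ∈ range z, Real.exp 84 * (1 / 4 : ℝ) ^ (bb B r + 1) := by ring
    _ ≤ _ := h7
    _ = _ := by ring

/-- Expansion of the sieve function as a short divisor sum. -/
theorem expansion (h : Data z S g) (B : ℕ) : ∃ (F : Finset (Finset ℕ)) (l : Finset ℕ → ℝ),
    (∀ D ∈ F, D ⊆ S) ∧ (∀ D ∈ F, |l D| ≤ 1) ∧ (∀ D ∈ F, ∏ p ∈ D, p ≤ z ^ (4 * B + 6)) ∧
    F.card ≤ z ^ (4 * B + 6) ∧
    ∀ f : ℕ → ℝ, Ufun z S B f = ∑ D ∈ F, l D * ∏ p ∈ D, f p := by
  have hU : (range z).biUnion (blk z S) = S :=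
    blk_union h.one_le (fun p hp => ⟨(h.prime p hp).two_le, h.lt p hp⟩)
  have hTsub : ∀ r, TT z S B none r ⊆ (blk z S r).powerset := by
    intro r
    unfold TT
    simp only [reduceCtorEq, if_false]
    exact Finset.filter_subset _ _
  have hsub : ∀ D ∈ fam (blk z S) (TT z S B none) z, D ⊆ S := by
    intro D hD
    have := Finset.mem_powerset.1 (Finset.mem_filter.1 hD).1
    rwa [hU] at this
  have hprod : ∀ D ∈ fam (blk z S) (TT z S B none) z, ∏ p ∈ D, p ≤ z ^ (4 * B + 6) := by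
    intro D hD
    refine (prod_le_of_mem_fam (blk_disj z S) (x := xs z) (c := fun r => bb B r + 1)
      (fun r p hp => ((Finset.mem_filter.1 hp).2.2).le) (xs_pos h.one_le) ?_ hD).trans
      (Zbound h.one_le B)
    intro r D hD
    unfold TT at hD
    simp only [reduceCtorEq, if_false] at hD
    exact ((Finset.mem_filter.1 hD).2).trans (Nat.le_succ _)
  refine ⟨fam (blk z S) (TT z S B none) z, lam (blk z S) (ww none) z, hsub, ?_, hprod, ?_, ?_⟩
  · intro D hD
    unfold lam
    rw [Finset.abs_prod]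
    apply Finset.prod_le_one
    · intro r _; exact abs_nonneg _
    · intro r hr
      unfold ww
      simp [abs_pow]
  · exact card_le_of_prod_le _ (fun D hD p hp => h.prime p (hsub D hD hp)) _ hprod
  · intro f
    rw [← expand (blk z S) (TT z S B none) (ww none) (blk_disj z S) hTsub f z]
    unfold Ufun
    apply Finset.prod_congr rfl
    intro r _
    rw [loc_TT]
    simp

end Pool.Agent.Common_Sieve
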