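import Pool.Agent.Common_Sieve.Apps

set_option autoImplicit false
set_option exponentiation.threshold 1000

/-!
Upper bound for prime pairs.
-/

namespace Pool.Agent.Common_Sieve

open Finset

lemma one_sub_inv_pos {p : ℕ} (hp : p.Prime) : (0:ℝ) < 1 - 1 / p := by
  have : (1:ℝ) < p := by exact_mod_cast hp.one_lt
  have : (1:ℝ) / p < 1 := by rw [div_lt_one (by linarith)]; exact this
  linarith

lemma one_sub_inv_le (p : ℕ) : (1:ℝ) - 1 / p ≤ 1 := by
  have : (0:ℝ) ≤ 1 / p := by positivity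
  linarith

lemma prod_le_prod_subset {s t : Finset ℕ} (h : s ⊆ t) (f : ℕ → ℝ) (h0 : ∀ p ∈ t, 0 ≤ f p)
    (h1 : ∀ p ∈ t, f p ≤ 1) : ∏ p ∈ t, f p ≤ ∏ p ∈ s, f p := by
  rw [← Finset.prod_sdiff h]
  have h2 : ∏ p ∈ t \ s, f p ≤ 1 :=
    Finset.prod_le_one (fun p hp => h0 p (Finset.mem_sdiff.1 hp).1)
      (fun p hp => h1 p (Finset.mem_sdiff.1 hp).1)
  have h3 : 0 ≤ ∏ p ∈ s, f p := Finset.prod_nonneg (fun p hp => h0 p (h hp))
  nlinarith

lemma prod_S_le (w P0 : ℕ) (hw : 2 ≤ w) (S : Finset ℕ)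
    (hS : S = (range w).filter (fun p => p.Prime ∧ P0 ≤ p)) :
    (∏ p ∈ P0.primesBelow, (1 - (1:ℝ) / p)) * ∏ p ∈ S, (1 - (1:ℝ) / p) ≤ 1 / Real.log w := by
  refine le_trans ?_ (mertens_prod w hw)
  have h1 : w.primesBelow = ((range w).filter (fun p => p.Prime ∧ p < P0)) ∪ S := by
    ext p
    rw [hS]
    simp only [Nat.mem_primesBelow, Finset.mem_union, Finset.mem_filter, Finset.mem_range]
    constructor
    · rintro ⟨h1, h2⟩
      rcases Nat.lt_or_ge p P0 with h | h
      · left; exact ⟨h1, h2, h⟩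
      · right; exact ⟨h1, h2, h⟩
    · rintro (⟨h1, h2, _⟩ | ⟨h1, h2, _⟩) <;> exact ⟨h1, h2⟩
  rw [h1, Finset.prod_union]
  · apply mul_le_mul_of_nonneg_right
    · have hsub : (range w).filter (fun p => p.Prime ∧ p < P0) ⊆ P0.primesBelow := by
        intro p hp
        rw [Finset.mem_filter] at hp
        rw [Nat.mem_primesBelow]
        exact ⟨hp.2.2, hp.2.1⟩
      apply prod_le_prod_subset hsub
      · intro p hp
        exact (one_sub_inv_pos (Nat.prime_of_mem_primesBelow hp)).le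
      · intro p _
        exact one_sub_inv_le p
    · apply Finset.prod_nonneg
      intro p hp
      rw [hS, Finset.mem_filter] at hp
      exact (one_sub_inv_pos hp.2.1).le
  · rw [Finset.disjoint_left]
    intro p hp hp'
    rw [hS] at hp'
    have h1 := (Finset.mem_filter.1 hp).2.2
    have h2 := (Finset.mem_filter.1 hp').2.2
    omega

lemma log_sq_le (x : ℝ) (hx : 1 ≤ x) : Real.log x ^ 2 ≤ 16 * Real.sqrt x := by
  have h1 : Real.log x ≤ 4 * x ^ (1 / 4 : ℝ) := by
    have := Real.log_le_rpow_div (by linarith : (0:ℝ) ≤ x) (show (0:ℝ) < 1 / 4 by norm_num)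
    linarith
  have h0 : 0 ≤ Real.log x := Real.log_nonneg hx
  have h2 : (x ^ (1 / 4 : ℝ)) ^ 2 = Real.sqrt x := by
    rw [← Real.rpow_natCast, ← Real.rpow_mul (by linarith), Real.sqrt_eq_rpow]
    norm_num
  calc Real.log x ^ 2 ≤ (4 * x ^ (1 / 4 : ℝ)) ^ 2 := pow_le_pow_left₀ h0 h1 2
    _ = 16 * Real.sqrt x := by rw [mul_pow, h2]; norm_num

lemma lev_pow_sqrt (k : ℕ) (h : 1 ≤ lev k) : ((lev k : ℕ) : ℝ) ^ 260 ≤ Real.sqrt k := by
  apply Real.le_sqrt_of_sq_le
  rw [← pow_mul]
  have h1 := lev_pow_le k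
  have h2 : lev k ^ (260 * 2) ≤ lev k ^ 600 := Nat.pow_le_pow_right h (by norm_num)
  exact_mod_cast h2.trans h1

/-- Upper bound for prime pairs `n, A n + D z`, `z` a large prime. -/
theorem up (A D : ℤ) (hA : A ≠ 0) (hD : D ≠ 0) : ∃ C : ℝ, 0 < C ∧ ∃ K : ℕ, ∀ k ≥ K, ∀ z : ℕ,
    z.Prime → (k : ℝ) / 100 ≤ z → ∀ T : Finset ℕ,
    (∀ n ∈ T, 1 ≤ n ∧ n ≤ k ∧ n.Prime ∧ ∃ m : ℕ, m.Prime ∧ A * n + D * z = m) →
    (T.card : ℝ) ≤ C * k / (Real.log k) ^ 2 := by
  set P0 := A.natAbs + D.natAbs + 3 with hP0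
  set c0 := ∏ p ∈ P0.primesBelow, (1 - (1:ℝ) / p) with hc0
  have hc0pos : 0 < c0 := Finset.prod_pos (fun p hp =>
    one_sub_inv_pos (Nat.prime_of_mem_primesBelow hp))
  obtain ⟨K, hK⟩ := (tendsto_lev.eventually_ge_atTop 101).exists_forall_of_atTop
  refine ⟨3 * (1200 / c0) ^ 2 + 48, by positivity, K, ?_⟩
  intro k hk z hz hzk T hT
  have hw : 101 ≤ lev k := hK k hk
  set w := lev k with hwdef
  have hw600 := lev_pow_le k
  rw [← hwdef] at hw600
  have hk0 : 0 < k := (pow_pos (show 0 < w by omega) 600).trans_le hw600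
  have hwk : 100 * w < k := by
    have h1 : w ^ 2 ≤ w ^ 600 := Nat.pow_le_pow_right (by omega) (by norm_num)
    nlinarith
  have hwz : w < z := by
    have h1 : (w : ℝ) < k / 100 := by
      rw [lt_div_iff₀ (by norm_num)]
      have : ((100 * w : ℕ) : ℝ) < k := by exact_mod_cast hwk
      push_cast at this
      linarith
    exact_mod_cast h1.trans_le hzk
  set S := (range w).filter (fun p => p.Prime ∧ P0 ≤ p) with hS
  have hSp : ∀ p ∈ S, p.Prime ∧ p < w := by
    intro p hp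
    rw [hS, Finset.mem_filter, Finset.mem_range] at hp
    exact ⟨hp.2.1, hp.1⟩
  have hSP : ∀ p ∈ S, P0 ≤ p := fun p hp => (Finset.mem_filter.1 hp).2.2
  have hndvd : ∀ p ∈ S, ∀ E : ℤ, E ≠ 0 → E.natAbs < P0 → ¬ (p : ℤ) ∣ E := by
    intro p hp E hE hEP hd
    have h1 := Int.natAbs_dvd_natAbs.2 hd
    rw [Int.natAbs_natCast] at h1
    have h2 := Nat.le_of_dvd (Int.natAbs_pos.2 hE) h1
    have h3 := hSP p hp
    omega
  have hsieve := sieve_two (z := w) (by omega) hSp (fun p hp => by have := hSP p hp; omega)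
    1 0 A (D * z)
    (fun p hp => hndvd p hp 1 one_ne_zero (by norm_num; omega))
    (fun p hp => hndvd p hp A hA (by omega))
    (by
      intro p hp hd
      rw [one_mul, mul_zero, sub_zero] at hd
      have hpp := (hSp p hp).1
      rcases (Nat.prime_iff_prime_int.1 hpp).dvd_or_dvd hd with h | h
      · exact hndvd p hp D hD (by omega) h
      · have h1 : p ∣ z := by exact_mod_cast h
        have h2 := (Nat.prime_dvd_prime_iff_eq hpp hz).1 h1
        have h3 := (hSp p hp).2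
        omega) 0 k 31
  set T1 := T.filter (fun n : ℕ => n < w) with hT1
  set T2 := T.filter (fun n : ℕ => A * (n : ℤ) + D * z < w) with hT2
  set T3 := T.filter (fun n : ℕ => w ≤ n ∧ (w : ℤ) ≤ A * (n : ℤ) + D * z) with hT3
  have hTsub : T ⊆ T1 ∪ (T2 ∪ T3) := by
    intro n hn
    rw [Finset.mem_union, Finset.mem_union, hT1, hT2, hT3, Finset.mem_filter, Finset.mem_filter,
      Finset.mem_filter]
    by_cases h1 : n < w
    · left; exact ⟨hn, h1⟩
    · by_cases h2 : A * (n : ℤ) + D * z < w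
      · right; left; exact ⟨hn, h2⟩
      · right; right; exact ⟨hn, by omega, by omega⟩
  have hc1 : (T1.card : ℝ) ≤ w := by
    have : T1 ⊆ range w := by
      intro n hn
      rw [Finset.mem_range]
      exact (Finset.mem_filter.1 hn).2
    have := Finset.card_le_card this
    rw [Finset.card_range] at this
    exact_mod_cast this
  have hc2 : (T2.card : ℝ) ≤ w := by
    have h1 : (T2.image (fun n : ℕ => A * (n : ℤ) + D * z)).card = T2.card := by
      apply Finset.card_image_of_injective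
      intro a b hab
      simp only at hab
      have : A * (a : ℤ) = A * (b : ℤ) := by linarith
      have := mul_left_cancel₀ hA this
      exact_mod_cast this
    have h2 : T2.image (fun n : ℕ => A * (n : ℤ) + D * z) ⊆ Finset.Ico (0:ℤ) w := by
      intro x hx
      obtain ⟨n, hn, rfl⟩ := Finset.mem_image.1 hx
      obtain ⟨hnT, hlt⟩ := Finset.mem_filter.1 hn
      obtain ⟨m, _, hm⟩ := (hT n hnT).2.2.2
      rw [Finset.mem_Ico]
      refine ⟨?_, hlt⟩
      rw [hm]; positivity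
    have h3 := Finset.card_le_card h2
    rw [h1, Int.card_Ico, sub_zero, Int.toNat_natCast] at h3
    exact_mod_cast h3
  have hc3 : (T3.card : ℝ) ≤ (((Finset.Ioc (0:ℤ) (0 + k)).filter (fun n => ∀ p ∈ S,
        ¬ ((p : ℤ) ∣ 1 * n + 0 ∨ (p : ℤ) ∣ A * n + D * z))).card : ℝ) := by
    have h1 : (T3.image (fun n : ℕ => (n : ℤ))).card = T3.card :=
      Finset.card_image_of_injective _ Nat.cast_injective
    rw [← h1]
    have h2 : T3.image (fun n : ℕ => (n : ℤ)) ⊆ (Finset.Ioc (0:ℤ) (0 + k)).filter (fun n => ∀ p ∈ S,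
        ¬ ((p : ℤ) ∣ 1 * n + 0 ∨ (p : ℤ) ∣ A * n + D * z)) := by
      intro x hx
      obtain ⟨n, hn, rfl⟩ := Finset.mem_image.1 hx
      obtain ⟨hnT, hwn, hwm⟩ := Finset.mem_filter.1 hn
      obtain ⟨hn1, hnk, hnp, m, hmp, hm⟩ := hT n hnT
      rw [Finset.mem_filter, Finset.mem_Ioc]
      refine ⟨⟨by exact_mod_cast hn1, by simpa using hnk⟩, ?_⟩
      intro p hp hor
      obtain ⟨hpp, hpw⟩ := hSp p hp
      rcases hor with h | h
      · rw [one_mul, add_zero] at h
        have h4 : p ∣ n := by exact_mod_cast h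
        have := (Nat.prime_dvd_prime_iff_eq hpp hnp).1 h4
        omega
      · rw [hm] at h
        have h4 : p ∣ m := by exact_mod_cast h
        have := (Nat.prime_dvd_prime_iff_eq hpp hmp).1 h4
        rw [hm] at hwm
        have : w ≤ m := by exact_mod_cast hwm
        omega
    exact_mod_cast Finset.card_le_card h2
  have hcard : (T.card : ℝ) ≤ w + (w + T3.card) := by
    have h1 := Finset.card_le_card hTsub
    have h2 := Finset.card_union_le T1 (T2 ∪ T3)
    have h3 := Finset.card_union_le T2 T3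
    have h4 : (T.card : ℝ) ≤ T1.card + (T2.card + T3.card) := by
      exact_mod_cast h1.trans (h2.trans (by omega))
    linarith
  -- the product
  have hlogk : 0 < Real.log k := Real.log_pos (by exact_mod_cast (by omega : 1 < k))
  have hlogw : Real.log k / 1200 ≤ Real.log w := log_lev_ge (by omega)
  have hlogw0 : 0 < Real.log w := Real.log_pos (by exact_mod_cast (by omega : 1 < w))
  have hprod : ∏ p ∈ S, (1 - (2:ℝ) / p) ≤ (1200 / c0 / Real.log k) ^ 2 := by
    have h1 : ∏ p ∈ S, (1 - (2:ℝ) / p) ≤ ∏ p ∈ S, (1 - (1:ℝ) / p) ^ 2 := by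
      apply Finset.prod_le_prod
      · intro p hp
        have h2 : (3:ℝ) ≤ p := by
          have := hSP p hp
          exact_mod_cast (by omega : 3 ≤ p)
        rw [sub_nonneg, div_le_one (by linarith)]
        linarith
      · intro p hp
        have h2 : (0:ℝ) ≤ (1 / p) ^ 2 := by positivity
        have h3 : (2:ℝ) / p = 2 * (1 / p) := by ring
        rw [h3]
        nlinarith
    rw [Finset.prod_pow] at h1
    refine h1.trans ?_
    have h2 := prod_S_le w P0 (by omega) S hS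
    rw [← hc0] at h2
    have h3 : 0 ≤ ∏ p ∈ S, (1 - (1:ℝ) / p) :=
      Finset.prod_nonneg (fun p hp => (one_sub_inv_pos (hSp p hp).1).le)
    apply pow_le_pow_left₀ h3
    have h4 : 1 / Real.log w ≤ 1200 / Real.log k := by
      rw [div_le_div_iff₀ hlogw0 hlogk]
      linarith
    calc ∏ p ∈ S, (1 - (1:ℝ) / p) = (c0 * ∏ p ∈ S, (1 - (1:ℝ) / p)) / c0 := by
          field_simp
      _ ≤ (1200 / Real.log k) / c0 := by
          apply div_le_div_of_nonneg_right (h2.trans h4) hc0pos.le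
      _ = 1200 / c0 / Real.log k := by ring
  have hkr : (0:ℝ) < k := by exact_mod_cast hk0
  have hS3 : (T3.card : ℝ) ≤ k * (1200 / c0 / Real.log k) ^ 2 * 3 + Real.sqrt k := by
    have e1 : (w : ℝ) ^ (8 * 31 + 12) ≤ Real.sqrt k := lev_pow_sqrt k (by omega)
    have h0 : 0 ≤ ∏ p ∈ S, (1 - (2:ℝ) / p) := by
      apply Finset.prod_nonneg
      intro p hp
      have h2 : (3:ℝ) ≤ p := by
        have := hSP p hp
        exact_mod_cast (by omega : 3 ≤ p)
      rw [sub_nonneg, div_le_one (by linarith)]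
      linarith
    have e2 : (k : ℝ) * (∏ p ∈ S, (1 - (2:ℝ) / p)) * Real.exp (epsB 31)
        ≤ k * (1200 / c0 / Real.log k) ^ 2 * 3 := by
      apply mul_le_mul _ exp_epsB_31 (Real.exp_pos _).le (by positivity)
      exact mul_le_mul_of_nonneg_left hprod hkr.le
    exact le_trans (hc3.trans (le_of_eq (by congr!))) (hsieve.trans (add_le_add e2 e1))
  have hws : (w : ℝ) ≤ Real.sqrt k := by
    refine le_trans ?_ (lev_pow_sqrt k (by omega))
    rw [← hwdef]
    have : (1:ℝ) ≤ w := by exact_mod_cast (by omega : 1 ≤ w)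
    exact le_self_pow₀ this (by norm_num)
  have hsq : Real.sqrt k ≤ 16 * k / Real.log k ^ 2 := by
    rw [le_div_iff₀ (by positivity)]
    have h1 := log_sq_le k (by exact_mod_cast hk0)
    have h2 : Real.sqrt k * Real.sqrt k = k := Real.mul_self_sqrt hkr.le
    have h3 : 0 ≤ Real.sqrt k := Real.sqrt_nonneg _
    nlinarith
  calc (T.card : ℝ) ≤ 3 * Real.sqrt k + k * (1200 / c0 / Real.log k) ^ 2 * 3 := by linarith
    _ ≤ 3 * (16 * k / Real.log k ^ 2) + k * (1200 / c0 / Real.log k) ^ 2 * 3 := by linarith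
    _ = (3 * (1200 / c0) ^ 2 + 48) * k / Real.log k ^ 2 := by
        field_simp
        ring

end Pool.Agent.Common_Sieve
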