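import Pool.Agent.Common_Sieve.Bonferroni

set_option autoImplicit false

/-!
Brun-Hooley sieve: products of truncated inclusion-exclusion sums over blocks of primes.
-/

namespace Pool.Agent.Common_Sieve

open Finset

/-- local functional -/
def loc (T : Finset (Finset ℕ)) (w : Finset ℕ → ℝ) (g : ℕ → ℝ) : ℝ :=
  ∑ D ∈ T, w D * ∏ p ∈ D, g p

lemma btr_eq_loc (g : ℕ → ℝ) (s : Finset ℕ) (b : ℕ) :
    btr g s b = loc (s.powerset.filter (fun D => D.card ≤ b)) (fun D => (-1) ^ D.card) g := rfl

lemma esum_eq_loc (g : ℕ → ℝ) (s : Finset ℕ) (j : ℕ) :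
    esum g s j = loc (s.powersetCard j) (fun _ => 1) g := by
  unfold esum loc
  simp

/-- the family of sets obtained as unions of local pieces -/
def fam (blk : ℕ → Finset ℕ) (T : ℕ → Finset (Finset ℕ)) (R : ℕ) : Finset (Finset ℕ) :=
  ((range R).biUnion blk).powerset.filter (fun D => ∀ r ∈ range R, D ∩ blk r ∈ T r)

/-- the product weight -/
def lam (blk : ℕ → Finset ℕ) (w : ℕ → Finset ℕ → ℝ) (R : ℕ) (D : Finset ℕ) : ℝ :=
  ∏ r ∈ range R, w r (D ∩ blk r)

lemma fam_zero (blk : ℕ → Finset ℕ) (T : ℕ → Finset (Finset ℕ)) : fam blk T 0 = {∅} := by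
  unfold fam
  ext D
  simp

lemma expand (blk : ℕ → Finset ℕ) (T : ℕ → Finset (Finset ℕ)) (w : ℕ → Finset ℕ → ℝ)
    (hdisj : ∀ i j, i ≠ j → Disjoint (blk i) (blk j)) (hT : ∀ r, T r ⊆ (blk r).powerset)
    (g : ℕ → ℝ) (R : ℕ) :
    ∏ r ∈ range R, loc (T r) (w r) g = ∑ D ∈ fam blk T R, lam blk w R D * ∏ p ∈ D, g p := by
  induction R with
  | zero => simp [fam_zero, lam]
  | succ R ih =>
    rw [Finset.prod_range_succ, ih, loc, Finset.sum_mul_sum, ← Finset.sum_product']
    have hU : ∀ D ∈ fam blk T R, D ⊆ (range R).biUnion blk := by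
      intro D hD
      exact Finset.mem_powerset.1 (Finset.mem_filter.1 hD).1
    have hUR : Disjoint ((range R).biUnion blk) (blk R) := by
      rw [Finset.disjoint_biUnion_left]
      intro i hi
      exact hdisj i R (by have := Finset.mem_range.1 hi; omega)
    have hE : ∀ E ∈ T R, E ⊆ blk R := fun E hE => Finset.mem_powerset.1 (hT R hE)
    have key1 : ∀ D ∈ fam blk T R, ∀ E ∈ T R, ∀ r ∈ range R, (D ∪ E) ∩ blk r = D ∩ blk r := by
      intro D hD E hE' r hr
      rw [Finset.union_inter_distrib_right]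
      have : E ∩ blk r = ∅ := by
        rw [← Finset.disjoint_iff_inter_eq_empty]
        exact Finset.disjoint_of_subset_left (hE E hE')
          (hdisj R r (by have := Finset.mem_range.1 hr; omega))
      rw [this, Finset.union_empty]
    have key2 : ∀ D ∈ fam blk T R, ∀ E ∈ T R, (D ∪ E) ∩ blk R = E := by
      intro D hD E hE'
      rw [Finset.union_inter_distrib_right]
      have : D ∩ blk R = ∅ := by
        rw [← Finset.disjoint_iff_inter_eq_empty]
        exact Finset.disjoint_of_subset_left (hU D hD) hUR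
      rw [this, Finset.empty_union, Finset.inter_eq_left]
      exact hE E hE'
    have key3 : ∀ D ∈ fam blk T R, ∀ E ∈ T R, (D ∪ E) ∩ (range R).biUnion blk = D := by
      intro D hD E hE'
      rw [Finset.union_inter_distrib_right]
      have : E ∩ (range R).biUnion blk = ∅ := by
        rw [← Finset.disjoint_iff_inter_eq_empty]
        exact Finset.disjoint_of_subset_left (hE E hE') hUR.symm
      rw [this, Finset.union_empty, Finset.inter_eq_left]
      exact hU D hD
    refine Finset.sum_nbij' (fun x => x.1 ∪ x.2)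
      (fun D => (D ∩ (range R).biUnion blk, D ∩ blk R)) ?_ ?_ ?_ ?_ ?_
    · rintro ⟨D, E⟩ hx
      obtain ⟨hD, hE'⟩ := Finset.mem_product.1 hx
      simp only at hD hE' ⊢
      unfold fam
      rw [Finset.mem_filter, Finset.mem_powerset]
      constructor
      · rw [Finset.range_add_one, Finset.biUnion_insert]
        apply Finset.union_subset
        · exact (hU D hD).trans Finset.subset_union_right
        · exact (hE E hE').trans Finset.subset_union_left
      · intro r hr
        rcases Nat.lt_succ_iff_lt_or_eq.1 (Finset.mem_range.1 hr) with h | h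
        · rw [key1 D hD E hE' r (Finset.mem_range.2 h)]
          exact (Finset.mem_filter.1 hD).2 r (Finset.mem_range.2 h)
        · rw [h, key2 D hD E hE']
          exact hE'
    · intro D hD
      unfold fam at hD
      rw [Finset.mem_filter, Finset.mem_powerset] at hD
      rw [Finset.mem_product]
      constructor
      · unfold fam
        rw [Finset.mem_filter, Finset.mem_powerset]
        refine ⟨Finset.inter_subset_right, ?_⟩
        intro r hr
        have h1 : D ∩ (range R).biUnion blk ∩ blk r = D ∩ blk r := by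
          rw [Finset.inter_assoc]
          congr 1
          rw [Finset.inter_eq_right]
          exact Finset.subset_biUnion_of_mem blk hr
        simp only
        rw [h1]
        exact hD.2 r (Finset.mem_range.2 (by have := Finset.mem_range.1 hr; omega))
      · exact hD.2 R (Finset.self_mem_range_succ R)
    · rintro ⟨D, E⟩ hx
      obtain ⟨hD, hE'⟩ := Finset.mem_product.1 hx
      simp only at hD hE' ⊢
      rw [key3 D hD E hE', key2 D hD E hE']
    · intro D hD
      unfold fam at hD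
      rw [Finset.mem_filter, Finset.mem_powerset] at hD
      simp only
      rw [← Finset.inter_union_distrib_left, Finset.inter_eq_left]
      have h2 := hD.1
      rw [Finset.range_add_one, Finset.biUnion_insert] at h2
      rw [Finset.union_comm]
      exact h2
    · rintro ⟨D, E⟩ hx
      obtain ⟨hD, hE'⟩ := Finset.mem_product.1 hx
      simp only at hD hE' ⊢
      have h1 : lam blk w (R + 1) (D ∪ E) = lam blk w R D * w R E := by
        unfold lam
        rw [Finset.prod_range_succ, key2 D hD E hE']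
        congr 1
        apply Finset.prod_congr rfl
        intro r hr
        rw [key1 D hD E hE' r hr]
      rw [h1, Finset.prod_union]
      · ring
      · exact Finset.disjoint_of_subset_left (hU D hD)
          (Finset.disjoint_of_subset_right (hE E hE') hUR)

/-- product of the primes in a member of the family -/
lemma prod_le_of_mem_fam {blk : ℕ → Finset ℕ} {T : ℕ → Finset (Finset ℕ)} {R : ℕ}
    (hdisj : ∀ i j, i ≠ j → Disjoint (blk i) (blk j))
    {x c : ℕ → ℕ} (hx : ∀ r, ∀ p ∈ blk r, p ≤ x r) (hx1 : ∀ r, 1 ≤ x r)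
    (hc : ∀ r, ∀ D ∈ T r, D.card ≤ c r) {D : Finset ℕ} (hD : D ∈ fam blk T R) :
    ∏ p ∈ D, p ≤ ∏ r ∈ range R, x r ^ c r := by
  unfold fam at hD
  rw [Finset.mem_filter, Finset.mem_powerset] at hD
  have h1 : D = (range R).biUnion (fun r => D ∩ blk r) := by
    ext p
    simp only [Finset.mem_biUnion, Finset.mem_inter]
    constructor
    · intro hp
      obtain ⟨r, hr, hpr⟩ := Finset.mem_biUnion.1 (hD.1 hp)
      exact ⟨r, hr, hp, hpr⟩
    · rintro ⟨r, _, hp, _⟩; exact hp
  have h2 : ∏ p ∈ D, p = ∏ r ∈ range R, ∏ p ∈ D ∩ blk r, p := by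
    conv_lhs => rw [h1]
    rw [Finset.prod_biUnion]
    intro i _ j _ hij
    simp only [Function.onFun]
    exact Finset.disjoint_of_subset_left Finset.inter_subset_right
      (Finset.disjoint_of_subset_right Finset.inter_subset_right (hdisj i j hij))
  rw [h2]
  apply Finset.prod_le_prod'
  intro r hr
  calc ∏ p ∈ D ∩ blk r, p ≤ ∏ _p ∈ D ∩ blk r, x r := by
        apply Finset.prod_le_prod'
        intro p hp
        exact hx r p (Finset.mem_inter.1 hp).2
    _ = x r ^ (D ∩ blk r).card := by rw [Finset.prod_const]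
    _ ≤ x r ^ c r := Nat.pow_le_pow_right (hx1 r) (hc r _ (hD.2 r hr))

/-- a set of primes is determined by its product -/
lemma prod_primes_injOn : Set.InjOn (fun D : Finset ℕ => ∏ p ∈ D, p)
    {D : Finset ℕ | ∀ p ∈ D, p.Prime} := by
  intro D hD E hE h
  have h1 : (∏ p ∈ D, p).primeFactors = D := Nat.primeFactors_prod hD
  have h2 : (∏ p ∈ E, p).primeFactors = E := Nat.primeFactors_prod hE
  simp only at h
  rw [← h1, ← h2, h]

lemma card_le_of_prod_le (F : Finset (Finset ℕ)) (hF : ∀ D ∈ F, ∀ p ∈ D, p.Prime) (Z : ℕ)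
    (hZ : ∀ D ∈ F, ∏ p ∈ D, p ≤ Z) : F.card ≤ Z := by
  have h1 : F.card = (F.image (fun D : Finset ℕ => ∏ p ∈ D, p)).card := by
    rw [Finset.card_image_of_injOn]
    exact prod_primes_injOn.mono (fun D hD => hF D hD)
  rw [h1]
  have h2 : F.image (fun D : Finset ℕ => ∏ p ∈ D, p) ⊆ Finset.Icc 1 Z := by
    intro m hm
    obtain ⟨D, hD, rfl⟩ := Finset.mem_image.1 hm
    rw [Finset.mem_Icc]
    exact ⟨Finset.prod_pos (fun p hp => (hF D hD p hp).pos), hZ D hD⟩
  calc _ ≤ (Finset.Icc 1 Z).card := Finset.card_le_card h2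
    _ = Z := by simp

lemma two_pow_card_le_prod {D : Finset ℕ} (hD : ∀ p ∈ D, p.Prime) :
    2 ^ D.card ≤ ∏ p ∈ D, p := by
  rw [← Finset.prod_const]
  exact Finset.prod_le_prod' (fun p hp => (hD p hp).two_le)

/-- averaging of a product of local functionals -/
lemma avg {α : Type*} (X : Finset α) (ind : α → ℕ → ℝ) (g : ℕ → ℝ) (M : ℝ)
    (blk : ℕ → Finset ℕ) (T : ℕ → Finset (Finset ℕ)) (w : ℕ → Finset ℕ → ℝ)
    (hdisj : ∀ i j, i ≠ j → Disjoint (blk i) (blk j)) (hT : ∀ r, T r ⊆ (blk r).powerset)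
    (hw : ∀ r, ∀ D ∈ T r, |w r D| ≤ 1) (hblk : ∀ r, ∀ p ∈ blk r, p.Prime)
    (R : ℕ) (x c : ℕ → ℕ) (hx : ∀ r, ∀ p ∈ blk r, p ≤ x r) (hx1 : ∀ r, 1 ≤ x r)
    (hc : ∀ r, ∀ D ∈ T r, D.card ≤ c r)
    (herr : ∀ D : Finset ℕ, D ⊆ (range R).biUnion blk →
      |∑ n ∈ X, ∏ p ∈ D, ind n p - M * ∏ p ∈ D, g p| ≤ 2 ^ D.card) :
    |∑ n ∈ X, ∏ r ∈ range R, loc (T r) (w r) (ind n) - M * ∏ r ∈ range R, loc (T r) (w r) g|
      ≤ ((∏ r ∈ range R, x r ^ c r : ℕ) : ℝ) ^ 2 := by
  set Z := ∏ r ∈ range R, x r ^ c r with hZ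
  have e1 : ∀ n ∈ X, ∏ r ∈ range R, loc (T r) (w r) (ind n)
      = ∑ D ∈ fam blk T R, lam blk w R D * ∏ p ∈ D, ind n p :=
    fun n _ => expand blk T w hdisj hT (ind n) R
  rw [Finset.sum_congr rfl e1, expand blk T w hdisj hT g R, Finset.sum_comm, Finset.mul_sum,
    ← Finset.sum_sub_distrib]
  have hfamsub : ∀ D ∈ fam blk T R, D ⊆ (range R).biUnion blk := by
    intro D hD
    exact Finset.mem_powerset.1 (Finset.mem_filter.1 hD).1
  have hprime : ∀ D ∈ fam blk T R, ∀ p ∈ D, p.Prime := by
    intro D hD p hp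
    obtain ⟨r, _, hr⟩ := Finset.mem_biUnion.1 (hfamsub D hD hp)
    exact hblk r p hr
  have hlam : ∀ D ∈ fam blk T R, |lam blk w R D| ≤ 1 := by
    intro D hD
    unfold lam
    rw [Finset.abs_prod]
    apply Finset.prod_le_one
    · intro r _; exact abs_nonneg _
    · intro r hr
      exact hw r _ ((Finset.mem_filter.1 hD).2 r hr)
  have hb : ∀ D ∈ fam blk T R,
      |∑ n ∈ X, lam blk w R D * ∏ p ∈ D, ind n p - M * (lam blk w R D * ∏ p ∈ D, g p)|
        ≤ (Z : ℝ) := by
    intro D hD
    have h1 : ∑ n ∈ X, lam blk w R D * ∏ p ∈ D, ind n p - M * (lam blk w R D * ∏ p ∈ D, g p)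
        = lam blk w R D * (∑ n ∈ X, ∏ p ∈ D, ind n p - M * ∏ p ∈ D, g p) := by
      rw [← Finset.mul_sum]; ring
    rw [h1, abs_mul]
    calc |lam blk w R D| * |∑ n ∈ X, ∏ p ∈ D, ind n p - M * ∏ p ∈ D, g p|
        ≤ 1 * 2 ^ D.card := by
          apply mul_le_mul (hlam D hD) (herr D (hfamsub D hD)) (abs_nonneg _) zero_le_one
      _ ≤ (Z : ℝ) := by
          rw [one_mul]
          have h2 := (two_pow_card_le_prod (hprime D hD)).trans
            (prod_le_of_mem_fam hdisj hx hx1 hc hD)
          exact_mod_cast h2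
  have hcard : ((fam blk T R).card : ℝ) ≤ Z := by
    have := card_le_of_prod_le (fam blk T R) hprime Z
      (fun D hD => prod_le_of_mem_fam hdisj hx hx1 hc hD)
    exact_mod_cast this
  calc _ ≤ ∑ D ∈ fam blk T R,
      |∑ n ∈ X, lam blk w R D * ∏ p ∈ D, ind n p - M * (lam blk w R D * ∏ p ∈ D, g p)| :=
        Finset.abs_sum_le_sum_abs _ _
    _ ≤ ∑ D ∈ fam blk T R, (Z : ℝ) := Finset.sum_le_sum hb
    _ = (fam blk T R).card * (Z : ℝ) := by rw [Finset.sum_const, nsmul_eq_mul]
    _ ≤ (Z : ℝ) * Z := by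
        apply mul_le_mul_of_nonneg_right hcard
        positivity
    _ = (Z : ℝ) ^ 2 := by ring

/-- product comparison: `∏ U - ∏ a ≤ ∑_r e_r ∏_{j ≠ r} U_j` -/
lemma prod_sub_prod_le (R : ℕ) (U a e : ℕ → ℝ) (ha : ∀ r, 0 ≤ a r) (haU : ∀ r, a r ≤ U r)
    (he : ∀ r, U r - a r ≤ e r) :
    ∏ r ∈ range R, U r - ∏ r ∈ range R, a r
      ≤ ∑ s ∈ range R, ∏ r ∈ range R, (if r = s then e r else U r) := by
  induction R with
  | zero => simp
  | succ R ih =>
    have hU : ∀ r, 0 ≤ U r := fun r => (ha r).trans (haU r)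
    have he0 : ∀ r, 0 ≤ e r := fun r => le_trans (by linarith [haU r]) (he r)
    rw [Finset.prod_range_succ, Finset.prod_range_succ, Finset.sum_range_succ]
    have h1 : ∏ r ∈ range R, a r ≤ ∏ r ∈ range R, U r :=
      Finset.prod_le_prod (fun r _ => ha r) (fun r _ => haU r)
    have h2 : ∏ r ∈ range (R + 1), (if r = R then e r else U r) = (∏ r ∈ range R, U r) * e R := by
      rw [Finset.prod_range_succ]
      congr 1
      · apply Finset.prod_congr rfl
        intro r hr
        rw [if_neg (by have := Finset.mem_range.1 hr; omega)]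
      · simp
    have h3 : ∑ s ∈ range R, ∏ r ∈ range (R + 1), (if r = s then e r else U r)
        = (∑ s ∈ range R, ∏ r ∈ range R, (if r = s then e r else U r)) * U R := by
      rw [Finset.sum_mul]
      apply Finset.sum_congr rfl
      intro s hs
      rw [Finset.prod_range_succ, if_neg (by have := Finset.mem_range.1 hs; omega)]
    rw [h2, h3]
    have h4 : (∏ r ∈ range R, U r) * U R - (∏ r ∈ range R, a r) * a R
        = (∏ r ∈ range R, U r - ∏ r ∈ range R, a r) * U R
          + (∏ r ∈ range R, a r) * (U R - a R) := by ring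
    rw [h4]
    have h5 := mul_le_mul_of_nonneg_right ih (hU R)
    have h6 : (∏ r ∈ range R, a r) * (U R - a R) ≤ (∏ r ∈ range R, U r) * e R := by
      apply mul_le_mul h1 (he R) (by linarith [haU R])
      exact Finset.prod_nonneg (fun r _ => hU r)
    linarith

end Pool.Agent.Common_Sieve
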